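import Pool.Agent.H7.Kakeya.Leaf

/-! Base cases and the deduction of the frozen statement. -/

set_option autoImplicit false

namespace Pool.Agent.H7.Kakeya

open MvPolynomial

noncomputable section

theorem line_eq_of_two_points {n : ℕ} {l₁ l₂ : AffineSubspace ℝ (Fin n → ℝ)}
    (h₁ : Module.finrank ℝ l₁.direction = 1) (h₂ : Module.finrank ℝ l₂.direction = 1)
    {x y : Fin n → ℝ} (hxy : x ≠ y) (hx₁ : x ∈ l₁) (hy₁ : y ∈ l₁) (hx₂ : x ∈ l₂) (hy₂ : y ∈ l₂) :
    l₁ = l₂ := by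
  have key : ∀ l : AffineSubspace ℝ (Fin n → ℝ), Module.finrank ℝ l.direction = 1 → x ∈ l →
      y ∈ l → l.direction = Submodule.span ℝ {x - y} := by
    intro l hl hx hy
    symm
    refine Submodule.eq_of_le_of_finrank_eq ?_ ?_
    · rw [Submodule.span_singleton_le_iff_mem]
      exact AffineSubspace.vsub_mem_direction hx hy
    · rw [hl]
      exact finrank_span_singleton (sub_ne_zero.2 hxy)
  exact AffineSubspace.ext_of_direction_eq
    (by rw [key l₁ h₁ hx₁ hy₁, key l₂ h₂ hx₂ hy₂]) ⟨x, hx₁, hx₂⟩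

theorem ncard_filter {n : ℕ} (P : Finset (Fin n → ℝ)) (l : AffineSubspace ℝ (Fin n → ℝ))
    [DecidablePred (fun x => x ∈ l)] :
    {x : Fin n → ℝ | x ∈ P ∧ x ∈ l}.ncard = (P.filter (fun x => x ∈ l)).card := by
  rw [← Set.ncard_coe_finset]
  congr 1
  ext x
  simp

/-- Pair counting. -/
theorem pair_count {n : ℕ} (A : ℕ) (N : ℕ) (L : Finset (AffineSubspace ℝ (Fin n → ℝ)))
    (P : Finset (Fin n → ℝ)) (hL : ∀ l ∈ L, Module.finrank ℝ l.direction = 1)
    (hA : (L.card : ℝ) ≤ A * (N : ℝ))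
    (hP : ∀ l ∈ L, N ≤ {x : Fin n → ℝ | x ∈ P ∧ x ∈ l}.ncard) :
    (L.card : ℝ) * (N : ℝ) ≤ (1 + A) * (P.card : ℝ) := by
  classical
  let δ : (Fin n → ℝ) → AffineSubspace ℝ (Fin n → ℝ) → ℝ := fun x l => if x ∈ l then 1 else 0
  have hδ0 : ∀ x l, 0 ≤ δ x l := by
    intro x l
    simp only [δ]
    split_ifs <;> norm_num
  have hδ1 : ∀ x l, δ x l * δ x l = δ x l := by
    intro x l
    simp only [δ]
    split_ifs <;> norm_num
  set I : ℝ := ∑ x ∈ P, ∑ l ∈ L, δ x l with hI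
  have hI' : I = ∑ l ∈ L, ∑ x ∈ P, δ x l := Finset.sum_comm
  have hsumδ : ∀ l, ∑ x ∈ P, δ x l = ((P.filter (fun x => x ∈ l)).card : ℝ) := by
    intro l
    simp only [δ]
    rw [Finset.sum_ite, Finset.sum_const_zero, add_zero, Finset.sum_const, nsmul_eq_mul, mul_one]
  have hIge : (L.card : ℝ) * N ≤ I := by
    rw [hI', ← nsmul_eq_mul, ← Finset.sum_const]
    refine Finset.sum_le_sum ?_
    intro l hl
    rw [hsumδ]
    have := hP l hl
    rw [ncard_filter] at this
    exact_mod_cast this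
  have hI0 : 0 ≤ I := Finset.sum_nonneg (fun x _ => Finset.sum_nonneg (fun l _ => hδ0 x l))
  have hcs : I ^ 2 ≤ (P.card : ℝ) * ∑ x ∈ P, (∑ l ∈ L, δ x l) ^ 2 := sq_sum_le_card_mul_sum_sq
  have hsq : ∑ x ∈ P, (∑ l ∈ L, δ x l) ^ 2 ≤ I + (L.card : ℝ) ^ 2 := by
    have h1 : ∑ x ∈ P, (∑ l ∈ L, δ x l) ^ 2 =
        ∑ l ∈ L, ∑ l' ∈ L, ∑ x ∈ P, δ x l * δ x l' := by
      calc ∑ x ∈ P, (∑ l ∈ L, δ x l) ^ 2
          = ∑ x ∈ P, ∑ l ∈ L, ∑ l' ∈ L, δ x l * δ x l' := by
            refine Finset.sum_congr rfl ?_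
            intro x _
            rw [sq, Finset.sum_mul_sum]
        _ = ∑ l ∈ L, ∑ x ∈ P, ∑ l' ∈ L, δ x l * δ x l' := Finset.sum_comm
        _ = _ := by
            refine Finset.sum_congr rfl ?_
            intro l _
            exact Finset.sum_comm
    rw [h1]
    have h2 : ∀ l ∈ L, ∀ l' ∈ L, ∑ x ∈ P, δ x l * δ x l' ≤
        (if l = l' then ∑ x ∈ P, δ x l else 0) + 1 := by
      intro l hl l' hl'
      split_ifs with h
      · subst h
        simp only [hδ1]
        linarith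
      · rw [zero_add]
        have h3 : ∑ x ∈ P, δ x l * δ x l' =
            ((P.filter (fun x => x ∈ l ∧ x ∈ l')).card : ℝ) := by
          have h4 : ∀ x, δ x l * δ x l' = if (x ∈ l ∧ x ∈ l') then 1 else 0 := by
            intro x
            simp only [δ]
            by_cases h5 : x ∈ l <;> by_cases h6 : x ∈ l' <;> simp [h5, h6]
          simp only [h4]
          rw [Finset.sum_ite, Finset.sum_const_zero, add_zero, Finset.sum_const, nsmul_eq_mul,
            mul_one]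
        rw [h3]
        have h4 : (P.filter (fun x => x ∈ l ∧ x ∈ l')).card ≤ 1 := by
          rw [Finset.card_le_one]
          intro x hx y hy
          rw [Finset.mem_filter] at hx hy
          by_contra hne
          exact h (line_eq_of_two_points (hL l hl) (hL l' hl') hne hx.2.1 hy.2.1 hx.2.2 hy.2.2)
        exact_mod_cast h4
    calc ∑ l ∈ L, ∑ l' ∈ L, ∑ x ∈ P, δ x l * δ x l'
        ≤ ∑ l ∈ L, ∑ l' ∈ L, ((if l = l' then ∑ x ∈ P, δ x l else 0) + 1) :=
          Finset.sum_le_sum (fun l hl => Finset.sum_le_sum (fun l' hl' => h2 l hl l' hl'))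
      _ = I + (L.card : ℝ) ^ 2 := by
          simp only [Finset.sum_add_distrib, Finset.sum_const, nsmul_eq_mul, mul_one,
            Finset.sum_ite_eq]
          rw [hI']
          congr 1
          · refine Finset.sum_congr rfl ?_
            intro l hl
            rw [if_pos hl]
          · rw [sq]
  have hLI : (L.card : ℝ) ^ 2 ≤ A * I := by
    have h1 : (L.card : ℝ) ^ 2 ≤ (A * N) * (L.card : ℝ) := by
      rw [sq]
      exact mul_le_mul_of_nonneg_right hA (Nat.cast_nonneg _)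
    calc (L.card : ℝ) ^ 2 ≤ (A * N) * (L.card : ℝ) := h1
      _ = A * (L.card * N) := by ring
      _ ≤ A * I := mul_le_mul_of_nonneg_left hIge (Nat.cast_nonneg _)
  have hfin : I ^ 2 ≤ (P.card : ℝ) * ((1 + A) * I) := by
    refine hcs.trans ?_
    refine mul_le_mul_of_nonneg_left ?_ (Nat.cast_nonneg _)
    calc ∑ x ∈ P, (∑ l ∈ L, δ x l) ^ 2 ≤ I + (L.card : ℝ) ^ 2 := hsq
      _ ≤ I + A * I := by linarith
      _ = (1 + A) * I := by ring
  refine hIge.trans ?_
  rcases eq_or_lt_of_le hI0 with h0 | h0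
  · rw [← h0]
    exact mul_nonneg (add_nonneg zero_le_one (Nat.cast_nonneg A)) (Nat.cast_nonneg _)
  · have h1 : I * I ≤ ((1 + A) * (P.card : ℝ)) * I := by
      calc I * I = I ^ 2 := by ring
        _ ≤ _ := hfin
        _ = _ := by ring
    exact le_of_mul_le_mul_right h1 h0

theorem main_two : Main 2 := by
  intro A
  refine ⟨fun _ => 0, (1 + (A : ℝ))⁻¹, by positivity, ?_⟩
  intro N L P hL hcard _ hP
  have h1 := pair_count A N L P hL (by simpa using hcard) hP
  rw [mul_assoc, inv_mul_le_iff₀ (by positivity)]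
  exact h1

theorem main_one : Main 1 := by
  intro A
  refine ⟨fun _ => 0, 1, by norm_num, ?_⟩
  intro N L P hL hcard _ hP
  have htop : ∀ l ∈ L, l = ⊤ := by
    intro l hl
    obtain ⟨a, v, -, ha, -, -⟩ := line_param (hL l hl)
    rw [← AffineSubspace.direction_eq_top_iff_of_nonempty ⟨a, ha⟩]
    refine Submodule.eq_top_of_finrank_eq ?_
    rw [hL l hl, Module.finrank_fin_fun]
  have hle : L.card ≤ 1 := by
    rw [Finset.card_le_one]
    intro l hl l' hl'
    rw [htop l hl, htop l' hl']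
  rcases L.eq_empty_or_nonempty with h0 | ⟨l, hl⟩
  · rw [h0]
    simp
  · have h1 : {x : Fin 1 → ℝ | x ∈ P ∧ x ∈ l}.ncard ≤ P.card := by
      rw [← Set.ncard_coe_finset]
      exact Set.ncard_le_ncard (fun x hx => hx.1) P.finite_toSet
    have h2 : (N : ℝ) ≤ P.card := by exact_mod_cast (hP l hl).trans h1
    have h3 : (L.card : ℝ) ≤ 1 := by exact_mod_cast hle
    calc 1 * (L.card : ℝ) * N ≤ 1 * 1 * (N : ℝ) := by gcongr
      _ ≤ P.card := by simpa using h2

/-- The frozen statement follows from `Main n` for all `n ≥ 1`. -/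
theorem final (h : ∀ n : ℕ, 1 ≤ n → Main n) :
    ∀ n : ℕ, ∃ d : ℕ → ℕ, ∃ C : ℝ, 0 < C ∧
    ∀ N : ℕ, ∀ L : Finset (AffineSubspace ℝ (Fin n → ℝ)), ∀ P : Finset (Fin n → ℝ),
      (∀ l ∈ L, Module.finrank ℝ l.direction = 1) →
      L.card = N ^ (n - 1) →
      (∀ r : ℕ, 1 < r → r < n → ∀ S : Set (MvPolynomial (Fin n) ℝ),
        (∀ p ∈ S, p.totalDegree ≤ d r) →
        ringKrullDim (MvPolynomial (Fin n) ℝ ⧸
            RingHom.ker (Pi.ringHom
              (fun x : {x : Fin n → ℝ // ∀ p ∈ S, MvPolynomial.eval x p = 0} =>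
                MvPolynomial.eval x.1)))
          ≤ (((r : ℕ∞)) : WithBot ℕ∞) →
        {l : AffineSubspace ℝ (Fin n → ℝ) | l ∈ L ∧ (l : Set (Fin n → ℝ)) ⊆
            {x : Fin n → ℝ | ∀ p ∈ S, MvPolynomial.eval x p = 0}}.ncard < N ^ (r - 1)) →
      (∀ l ∈ L, N ≤ {x : Fin n → ℝ | x ∈ P ∧ x ∈ l}.ncard) →
      C * (N : ℝ) ^ n ≤ (P.card : ℝ) := by
  intro n
  rcases Nat.eq_zero_or_pos n with h0 | hn
  · subst h0
    refine ⟨fun _ => 0, 1, by norm_num, ?_⟩
    intro N L P hL hcard _ _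
    exfalso
    have h1 : L.card = 1 := by simpa using hcard
    obtain ⟨l, hl⟩ := Finset.card_pos.1 (by rw [h1]; norm_num : 0 < L.card)
    have h2 := hL l hl
    have h3 : Module.finrank ℝ l.direction ≤ Module.finrank ℝ (Fin 0 → ℝ) :=
      Submodule.finrank_le _
    rw [h2, Module.finrank_fin_fun] at h3
    omega
  · obtain ⟨d, C, hC, hmain⟩ := h n hn 1
    refine ⟨d, C, hC, ?_⟩
    intro N L P hL hcard hfew hP
    have h1 := hmain N L P hL (by rw [hcard]; simp) (by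
      intro r hr1 hr2 S hS hdim
      have := hfew r hr1 hr2 S hS hdim
      have h2 : ({l : AffineSubspace ℝ (Fin n → ℝ) | l ∈ L ∧ (l : Set (Fin n → ℝ)) ⊆
        zset S}.ncard : ℝ) ≤ (N : ℝ) ^ (r - 1) := by
        exact_mod_cast this.le
      simpa using h2) hP
    rw [hcard] at h1
    refine le_trans (le_of_eq ?_) h1
    push_cast
    rw [mul_assoc, ← pow_succ, Nat.sub_add_cancel hn]

end

end Pool.Agent.H7.Kakeya
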