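import Mathlib

/-! Dimension of real zero sets: the outer part of the Kakeya problem for points on lines
(`MP_ced40c_co`). -/

set_option autoImplicit false

namespace Pool.Agent.H7.Kakeya

open MvPolynomial

noncomputable section

/-- Krull dimension of the coordinate ring of the real zero set of `S`. -/
def vdim {n : ℕ} (S : Set (MvPolynomial (Fin n) ℝ)) : WithBot ℕ∞ :=
  ringKrullDim (MvPolynomial (Fin n) ℝ ⧸
    RingHom.ker (Pi.ringHom
      (fun x : {x : Fin n → ℝ // ∀ p ∈ S, MvPolynomial.eval x p = 0} =>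
        MvPolynomial.eval x.1)))

theorem cancel_one (a : WithBot ℕ∞) (m : ℕ) (h : a + 1 ≤ (((m : ℕ∞)) : WithBot ℕ∞) + 1) :
    a ≤ (((m : ℕ∞)) : WithBot ℕ∞) := by
  induction a using WithBot.recBotCoe with
  | bot => exact bot_le
  | coe k =>
    have h' : ((k + 1 : ℕ∞) : WithBot ℕ∞) ≤ (((m : ℕ∞) + 1 : ℕ∞) : WithBot ℕ∞) := by
      simpa using h
    rw [WithBot.coe_le_coe] at h' ⊢
    exact (ENat.add_le_add_iff_right (by simp)).1 h'

theorem ringKrullDim_le_of_isIntegral {R S : Type*} [CommRing R] [CommRing S] (f : R →+* S)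
    (hf : f.IsIntegral) : ringKrullDim S ≤ ringKrullDim R := by
  let _ : Algebra R S := f.toAlgebra
  have _ : Algebra.IsIntegral R S := ⟨hf⟩
  refine Order.krullDim_le_of_strictMono
    (f := fun p : PrimeSpectrum S => PrimeSpectrum.comap f p) ?_
  intro p q hpq
  have h1 : p.asIdeal < q.asIdeal := hpq
  have h2 := Ideal.IsIntegral.comap_lt_comap (R := R) h1
  exact h2

/-- A hypersurface has dimension at most `m` in `ℝ^(m+1)`. -/
theorem vdim_le_of_mem {m : ℕ} {S : Set (MvPolynomial (Fin (m + 1)) ℝ)}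
    {p : MvPolynomial (Fin (m + 1)) ℝ} (hp : p ∈ S) (h0 : p ≠ 0) :
    vdim S ≤ (((m : ℕ∞)) : WithBot ℕ∞) := by
  unfold vdim
  set I := RingHom.ker (Pi.ringHom
      (fun x : {x : Fin (m + 1) → ℝ // ∀ p ∈ S, MvPolynomial.eval x p = 0} =>
        MvPolynomial.eval x.1)) with hI
  have h1 : ringKrullDim (MvPolynomial (Fin (m + 1)) ℝ ⧸ I) + 1 ≤
      ringKrullDim (MvPolynomial (Fin (m + 1)) ℝ) := by
    refine ringKrullDim_quotient_succ_le_of_nonZeroDivisor (r := p) ?_ |>.trans' ?_
    · exact mem_nonZeroDivisors_of_ne_zero h0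
    · gcongr
      have hle : Ideal.span {p} ≤ I := by
        rw [Ideal.span_le]
        intro q hq
        rw [Set.mem_singleton_iff] at hq
        subst hq
        rw [SetLike.mem_coe, hI, RingHom.mem_ker]
        funext x
        exact x.2 _ hp
      exact ringKrullDim_le_of_surjective (Ideal.Quotient.factor hle)
        (Ideal.Quotient.factor_surjective hle)
  have h2 : ringKrullDim (MvPolynomial (Fin (m + 1)) ℝ) = (((m : ℕ∞)) : WithBot ℕ∞) + 1 := by
    rw [MvPolynomial.ringKrullDim_of_isNoetherianRing, ringKrullDim_eq_zero_of_field]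
    simp
  rw [h2] at h1
  exact cancel_one _ _ h1

/-- The substitution `x_i ↦ x_{i+1} - u_i x_0`, i.e. the pullback under the projection of
`ℝ^(m+1)` to `ℝ^m` in direction `(1, u)`. -/
def pull {m : ℕ} (u : Fin m → ℝ) :
    MvPolynomial (Fin m) ℝ →ₐ[ℝ] MvPolynomial (Fin (m + 1)) ℝ :=
  aeval (fun i => X i.succ - C (u i) * X 0)

/-- The projection of `ℝ^(m+1)` to `ℝ^m` in direction `(1, u)`. -/
def proj {m : ℕ} (u : Fin m → ℝ) : (Fin (m + 1) → ℝ) →ₗ[ℝ] (Fin m → ℝ) where
  toFun x := fun i => x i.succ - u i * x 0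
  map_add' x y := by
    funext i
    simp only [Pi.add_apply]
    ring
  map_smul' c x := by
    funext i
    simp only [Pi.smul_apply, smul_eq_mul, RingHom.id_apply]
    ring

theorem proj_apply {m : ℕ} (u : Fin m → ℝ) (x : Fin (m + 1) → ℝ) (i : Fin m) :
    proj u x i = x i.succ - u i * x 0 := rfl

theorem eval_pull {m : ℕ} (u : Fin m → ℝ) (p : MvPolynomial (Fin m) ℝ) (x : Fin (m + 1) → ℝ) :
    eval x (pull u p) = eval (proj u x) p := by
  unfold pull
  induction p using MvPolynomial.induction_on with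
  | C a => simp
  | add p q hp hq => simp only [map_add, hp, hq]
  | mul_X p i hp =>
    simp only [map_mul, hp, aeval_X, eval_X, map_sub, eval_C, proj_apply]

theorem totalDegree_pull_le {m : ℕ} (u : Fin m → ℝ) (p : MvPolynomial (Fin m) ℝ) :
    (pull u p).totalDegree ≤ p.totalDegree := by
  have hlin : ∀ i : Fin m, (X i.succ - C (u i) * X 0 : MvPolynomial (Fin (m + 1)) ℝ).totalDegree
      ≤ 1 := by
    intro i
    refine (totalDegree_sub _ _).trans (max_le ?_ ?_)
    · rw [totalDegree_X]
    · refine (totalDegree_mul _ _).trans ?_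
      rw [totalDegree_C, totalDegree_X]
  unfold pull
  rw [aeval_def, eval₂_eq]
  refine (totalDegree_finsetSum_le (d := p.totalDegree) ?_)
  intro β hβ
  refine (totalDegree_mul _ _).trans ?_
  have h1 : ((algebraMap ℝ (MvPolynomial (Fin (m + 1)) ℝ)) (coeff β p)).totalDegree = 0 := by
    rw [algebraMap_eq, totalDegree_C]
  rw [h1, zero_add]
  refine (totalDegree_finsetProd _ _).trans ?_
  refine le_trans ?_ (le_totalDegree hβ)
  rw [Finsupp.sum]
  refine Finset.sum_le_sum ?_
  intro i _
  refine (totalDegree_pow _ _).trans ?_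
  calc β i * (X i.succ - C (u i) * X 0 : MvPolynomial (Fin (m + 1)) ℝ).totalDegree
      ≤ β i * 1 := Nat.mul_le_mul_left _ (hlin i)
    _ = β i := mul_one _

/-- `Q` as a polynomial in `x_0` over the coordinates of the projection. -/
def unpull {m : ℕ} (u : Fin m → ℝ) :
    MvPolynomial (Fin (m + 1)) ℝ →ₐ[ℝ] Polynomial (MvPolynomial (Fin m) ℝ) :=
  aeval (Fin.cons Polynomial.X
    (fun i => Polynomial.C (X i) + Polynomial.C (C (u i)) * Polynomial.X))

theorem unpull_X_zero {m : ℕ} (u : Fin m → ℝ) : unpull u (X 0) = Polynomial.X := by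
  unfold unpull
  rw [aeval_X, Fin.cons_zero]

theorem unpull_X_succ {m : ℕ} (u : Fin m → ℝ) (i : Fin m) : unpull u (X i.succ) =
    Polynomial.C (X i) + Polynomial.C (C (u i)) * Polynomial.X := by
  unfold unpull
  rw [aeval_X, Fin.cons_succ]

theorem eval₂_unpull {m : ℕ} (u : Fin m → ℝ) (p : MvPolynomial (Fin (m + 1)) ℝ) :
    Polynomial.eval₂ (pull u : MvPolynomial (Fin m) ℝ →+* MvPolynomial (Fin (m + 1)) ℝ) (X 0)
      (unpull u p) = p := by
  induction p using MvPolynomial.induction_on with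
  | C a =>
    have h1 : unpull u (C a) = Polynomial.C (C a) := by
      unfold unpull
      rw [aeval_C]
      rfl
    rw [h1, Polynomial.eval₂_C]
    unfold pull
    simp
  | add p q hp hq => rw [map_add, Polynomial.eval₂_add, hp, hq]
  | mul_X p i hp =>
    rw [map_mul, Polynomial.eval₂_mul, hp]
    congr 1
    refine Fin.cases ?_ ?_ i
    · rw [unpull_X_zero, Polynomial.eval₂_X]
    · intro j
      rw [unpull_X_succ]
      simp only [Polynomial.eval₂_add, Polynomial.eval₂_mul, Polynomial.eval₂_C,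
        Polynomial.eval₂_X]
      unfold pull
      simp

theorem unpull_lin {m : ℕ} (u : Fin m → ℝ) (i : Fin (m + 1)) :
    (unpull u (X i)).natDegree ≤ 1 ∧
      (unpull u (X i)).coeff 1 = C ((Fin.cons 1 u : Fin (m + 1) → ℝ) i) := by
  refine Fin.cases ?_ ?_ i
  · rw [unpull_X_zero, Fin.cons_zero]
    simp
  · intro j
    rw [unpull_X_succ, Fin.cons_succ]
    refine ⟨?_, ?_⟩
    · refine (Polynomial.natDegree_add_le _ _).trans (max_le ?_ ?_)
      · rw [Polynomial.natDegree_C]; exact Nat.zero_le _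
      · exact (Polynomial.natDegree_C_mul_le _ _).trans Polynomial.natDegree_X_le
    · simp [Polynomial.coeff_C]

theorem prod_pow_lin {R : Type*} [CommRing R] {ι : Type*} (s : Finset ι) (f : ι → Polynomial R)
    (hf : ∀ i, (f i).natDegree ≤ 1) (β : ι → ℕ) :
    (∏ i ∈ s, f i ^ β i).natDegree ≤ ∑ i ∈ s, β i ∧
      (∏ i ∈ s, f i ^ β i).coeff (∑ i ∈ s, β i) = ∏ i ∈ s, (f i).coeff 1 ^ β i := by
  classical
  induction s using Finset.induction_on with
  | empty => simp
  | insert a s ha ih =>
    rw [Finset.prod_insert ha, Finset.sum_insert ha, Finset.prod_insert ha]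
    have h1 : (f a ^ β a).natDegree ≤ β a := by
      refine (Polynomial.natDegree_pow_le).trans ?_
      calc β a * (f a).natDegree ≤ β a * 1 := Nat.mul_le_mul_left _ (hf a)
        _ = β a := mul_one _
    refine ⟨(Polynomial.natDegree_mul_le).trans (add_le_add h1 ih.1), ?_⟩
    rw [Polynomial.coeff_mul_add_eq_of_natDegree_le h1 ih.1, ih.2]
    congr 1
    have := Polynomial.coeff_pow_of_natDegree_le (m := β a) (hf a)
    rwa [mul_one] at this

theorem unpull_monomial {m : ℕ} (u : Fin m → ℝ) (β : Fin (m + 1) →₀ ℕ) (c : ℝ) :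
    (unpull u (monomial β c)).natDegree ≤ β.degree ∧
      (unpull u (monomial β c)).coeff β.degree =
        C (eval (Fin.cons 1 u : Fin (m + 1) → ℝ) (monomial β c)) := by
  have h0 : unpull u (monomial β c) =
      Polynomial.C (C c) * ∏ i ∈ (Finset.univ : Finset (Fin (m + 1))), (unpull u (X i)) ^ β i := by
    rw [monomial_eq, map_mul, Finsupp.prod_fintype _ _ (by intro i; simp), map_prod]
    congr 1
    · unfold unpull
      rw [aeval_C]
      rfl
    · simp only [map_pow]
  have h1 := prod_pow_lin (Finset.univ : Finset (Fin (m + 1))) (fun i => unpull u (X i))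
    (fun i => (unpull_lin u i).1) β
  have h2 : β.degree = ∑ i, β i := by
    rw [Finsupp.degree_eq_sum]
  rw [h0, h2]
  refine ⟨?_, ?_⟩
  · exact (Polynomial.natDegree_C_mul_le _ _).trans h1.1
  · rw [Polynomial.coeff_C_mul, h1.2]
    simp only [(unpull_lin u _).2]
    rw [eval_monomial, Finsupp.prod_fintype _ _ (by intro i; simp)]
    simp only [map_mul, map_prod, map_pow]

theorem unpull_top {m : ℕ} (u : Fin m → ℝ) (p : MvPolynomial (Fin (m + 1)) ℝ) (e : ℕ)
    (he : p.totalDegree ≤ e) :
    (unpull u p).natDegree ≤ e ∧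
      (unpull u p).coeff e =
        C (eval (Fin.cons 1 u : Fin (m + 1) → ℝ) (homogeneousComponent e p)) := by
  have key : ∀ β ∈ p.support, (unpull u (monomial β (coeff β p))).natDegree ≤ e ∧
      (unpull u (monomial β (coeff β p))).coeff e =
        C (eval (Fin.cons 1 u : Fin (m + 1) → ℝ)
          (if β.degree = e then monomial β (coeff β p) else 0)) := by
    intro β hβ
    have h1 : β.degree ≤ e := by
      refine le_trans ?_ he
      have := le_totalDegree hβ
      rwa [Finsupp.sum, ← Finsupp.degree_apply] at this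
    obtain ⟨h2, h3⟩ := unpull_monomial u β (coeff β p)
    refine ⟨h2.trans h1, ?_⟩
    split_ifs with h4
    · rw [← h4]; exact h3
    · rw [map_zero, map_zero]
      exact Polynomial.coeff_eq_zero_of_natDegree_lt (lt_of_le_of_lt h2 (lt_of_le_of_ne h1 h4))
  have hp : unpull u p = ∑ β ∈ p.support, unpull u (monomial β (coeff β p)) := by
    conv_lhs => rw [p.as_sum]
    rw [map_sum]
  refine ⟨?_, ?_⟩
  · rw [hp]
    exact Polynomial.natDegree_sum_le_of_forall_le _ _ (fun β hβ => (key β hβ).1)
  · rw [hp, Polynomial.finset_sum_coeff, Finset.sum_congr rfl (fun β hβ => (key β hβ).2),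
      ← map_sum, ← map_sum]
    congr 2
    rw [homogeneousComponent_apply, Finset.sum_filter]

/-- Pulling back a set of equations and adding a polynomial that is monic in the direction of
projection does not raise the dimension. -/
theorem vdim_pullback {m : ℕ} (S' : Set (MvPolynomial (Fin m) ℝ)) (u : Fin m → ℝ)
    (Q : MvPolynomial (Fin (m + 1)) ℝ) (e : ℕ) (he : Q.totalDegree ≤ e)
    (hQ : eval (Fin.cons 1 u : Fin (m + 1) → ℝ) (homogeneousComponent e Q) ≠ 0) :
    vdim ((pull u) '' S' ∪ {Q}) ≤ vdim S' := by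
  unfold vdim
  set T : Set (MvPolynomial (Fin (m + 1)) ℝ) := (pull u) '' S' ∪ {Q} with hT
  set I := RingHom.ker (Pi.ringHom
      (fun x : {x : Fin (m + 1) → ℝ // ∀ p ∈ T, MvPolynomial.eval x p = 0} =>
        MvPolynomial.eval x.1)) with hI
  set J := RingHom.ker (Pi.ringHom
      (fun x : {x : Fin m → ℝ // ∀ p ∈ S', MvPolynomial.eval x p = 0} =>
        MvPolynomial.eval x.1)) with hJ
  have hmemI : ∀ q : MvPolynomial (Fin (m + 1)) ℝ, q ∈ I ↔
      ∀ x : Fin (m + 1) → ℝ, (∀ p ∈ T, eval x p = 0) → eval x q = 0 := by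
    intro q
    rw [hI, RingHom.mem_ker]
    constructor
    · intro h x hx
      exact congrFun h ⟨x, hx⟩
    · intro h
      funext x
      exact h x.1 x.2
  have hmemJ : ∀ q : MvPolynomial (Fin m) ℝ, q ∈ J ↔
      ∀ x : Fin m → ℝ, (∀ p ∈ S', eval x p = 0) → eval x q = 0 := by
    intro q
    rw [hJ, RingHom.mem_ker]
    constructor
    · intro h x hx
      exact congrFun h ⟨x, hx⟩
    · intro h
      funext x
      exact h x.1 x.2
  have hle : J ≤ I.comap (pull u : MvPolynomial (Fin m) ℝ →+* MvPolynomial (Fin (m + 1)) ℝ) := by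
    intro q hq
    rw [Ideal.mem_comap, hmemI]
    intro x hx
    have h1 := (hmemJ q).1 hq (proj u x) (by
      intro p hp
      rw [← eval_pull]
      exact hx _ (Or.inl ⟨p, hp, rfl⟩))
    rw [← eval_pull] at h1
    exact h1
  let g : MvPolynomial (Fin m) ℝ ⧸ J →+* MvPolynomial (Fin (m + 1)) ℝ ⧸ I :=
    Ideal.quotientMap I (pull u : MvPolynomial (Fin m) ℝ →+* MvPolynomial (Fin (m + 1)) ℝ) hle
  refine ringKrullDim_le_of_isIntegral g ?_
  let f : MvPolynomial (Fin m) ℝ →+* MvPolynomial (Fin (m + 1)) ℝ ⧸ I :=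
    (Ideal.Quotient.mk I).comp
      (pull u : MvPolynomial (Fin m) ℝ →+* MvPolynomial (Fin (m + 1)) ℝ)
  have hgf : g.comp (Ideal.Quotient.mk J) = f := by
    ext x <;> simp [g, f]
  refine RingHom.IsIntegral.tower_top (Ideal.Quotient.mk J) g ?_
  rw [hgf]
  -- `x_0` is integral
  have hQ0 : Ideal.Quotient.mk I Q = 0 := by
    rw [Ideal.Quotient.eq_zero_iff_mem, hmemI]
    intro x hx
    exact hx _ (Or.inr rfl)
  obtain ⟨hd, hc⟩ := unpull_top u Q e he
  set c := eval (Fin.cons 1 u : Fin (m + 1) → ℝ) (homogeneousComponent e Q) with hcdef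
  have hX0 : f.IsIntegralElem (Ideal.Quotient.mk I (X 0)) := by
    refine ⟨Polynomial.C (C c⁻¹) * unpull u Q, ?_, ?_⟩
    · refine Polynomial.monic_of_natDegree_le_of_coeff_eq_one e ?_ ?_
      · exact (Polynomial.natDegree_C_mul_le _ _).trans hd
      · rw [Polynomial.coeff_C_mul, hc, ← map_mul, inv_mul_cancel₀ hQ, map_one]
    · rw [Polynomial.eval₂_mul]
      have h1 : Polynomial.eval₂ f (Ideal.Quotient.mk I (X 0)) (unpull u Q) =
          Ideal.Quotient.mk I Q := by
        rw [← Polynomial.hom_eval₂, eval₂_unpull]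
      rw [h1, hQ0, mul_zero]
  have hconst : ∀ a : ℝ, f.IsIntegralElem (Ideal.Quotient.mk I (C a)) := by
    intro a
    have : Ideal.Quotient.mk I (C a) = f (C a) := by
      simp only [f, RingHom.comp_apply]
      congr 1
      unfold pull
      simp
    rw [this]
    exact RingHom.isIntegralElem_map f
  have hX : ∀ i : Fin (m + 1), f.IsIntegralElem (Ideal.Quotient.mk I (X i)) := by
    intro i
    refine Fin.cases hX0 ?_ i
    intro j
    have h1 : Ideal.Quotient.mk I (X j.succ) = f (X j) +
        Ideal.Quotient.mk I (C (u j)) * Ideal.Quotient.mk I (X 0) := by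
      simp only [f, RingHom.comp_apply]
      rw [← map_mul, ← map_add]
      congr 1
      unfold pull
      simp
    rw [h1]
    exact (RingHom.isIntegralElem_map f).add f ((hconst _).mul f hX0)
  intro y
  obtain ⟨p, rfl⟩ := Ideal.Quotient.mk_surjective y
  induction p using MvPolynomial.induction_on with
  | C a => exact hconst a
  | add p q hp hq => rw [map_add]; exact hp.add f hq
  | mul_X p i hp => rw [map_mul]; exact hp.mul f (hX i)

end

end Pool.Agent.H7.Kakeya
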