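import Pool.Agent.H7.Kakeya.Poly

/-! The last step of the induction: lines carry (complex) labels that are constant along the line,
points carry boundedly many labels, and the lines with a given label lie in a hypersurface of
bounded degree. -/

set_option autoImplicit false

namespace Pool.Agent.H7.Kakeya

open MvPolynomial

noncomputable section

theorem card_exponents {m t : ℕ} (B : Finset (Fin (m + 1) →₀ ℕ)) (hB : ∀ β ∈ B, β.degree ≤ t) :
    B.card ≤ (t + 1) ^ (m + 1) := by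
  classical
  have h1 : B.card ≤ (Fintype.piFinset (fun _ : Fin (m + 1) => Finset.range (t + 1))).card := by
    refine Finset.card_le_card_of_injOn (fun β => (β : Fin (m + 1) → ℕ)) ?_ ?_
    · intro β hβ
      rw [Finset.mem_coe, Fintype.mem_piFinset]
      intro i
      rw [Finset.mem_range]
      have h2 := hB β hβ
      have h3 : β i ≤ β.degree := Finsupp.le_degree i β
      change β i < t + 1
      omega
    · intro β _ β' _ h
      exact DFunLike.coe_injective h
  refine h1.trans ?_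
  rw [Fintype.card_piFinset]
  simp

/-- The number of common labels of a point is bounded. -/
theorem card_labels {σ : Type*} [DecidableEq σ] (B : Finset σ) (R : ℕ) (p : σ → ℕ → ℂ)
    (hp : ∀ β ∈ B, p β R ≠ 0) (K : Finset (σ → ℂ)) (hK0 : ∀ κ ∈ K, ∀ β, β ∉ B → κ β = 0)
    (hK : ∀ κ ∈ K, ∀ β ∈ B, ∑ j ∈ Finset.range (R + 1), p β j * κ β ^ j = 0) :
    K.card ≤ R ^ B.card := by
  classical
  let q : σ → Polynomial ℂ := fun β =>
    ∑ j ∈ Finset.range (R + 1), Polynomial.C (p β j) * Polynomial.X ^ j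
  have hqc : ∀ β, (q β).coeff R = p β R := by
    intro β
    simp only [q, Polynomial.finsetSum_coeff, Polynomial.coeff_C_mul_X_pow]
    rw [Finset.sum_ite_eq]
    simp
  have hqd : ∀ β, (q β).natDegree ≤ R := by
    intro β
    refine Polynomial.natDegree_sum_le_of_forall_le _ _ ?_
    intro j hj
    rw [Finset.mem_range] at hj
    exact (Polynomial.natDegree_C_mul_X_pow_le _ _).trans (by omega)
  have hq0 : ∀ β ∈ B, q β ≠ 0 := by
    intro β hβ h0
    apply hp β hβ
    rw [← hqc, h0, Polynomial.coeff_zero]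
  have h1 : K.card ≤ (B.pi (fun β => (q β).roots.toFinset)).card := by
    refine Finset.card_le_card_of_injOn (fun κ => fun β _ => κ β) ?_ ?_
    · intro κ hκ
      rw [Finset.mem_coe, Finset.mem_pi]
      intro β hβ
      rw [Multiset.mem_toFinset, Polynomial.mem_roots (hq0 β hβ), Polynomial.IsRoot.def]
      simp only [q, Polynomial.eval_finsetSum, Polynomial.eval_mul, Polynomial.eval_C,
        Polynomial.eval_pow, Polynomial.eval_X]
      exact hK κ hκ β hβ
    · intro κ hκ κ' hκ' h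
      funext β
      by_cases hβ : β ∈ B
      · have := congrFun (congrFun h β) hβ
        exact this
      · rw [hK0 κ hκ β hβ, hK0 κ' hκ' β hβ]
  refine h1.trans ?_
  rw [Finset.card_pi]
  calc ∏ β ∈ B, (q β).roots.toFinset.card ≤ ∏ _β ∈ B, R := by
        refine Finset.prod_le_prod' ?_
        intro β hβ
        exact ((Multiset.toFinset_card_le _).trans (Polynomial.card_roots' _)).trans (hqd β)
    _ = R ^ B.card := by rw [Finset.prod_const]

theorem label_step (m : ℕ) (hm : 2 ≤ m) (hMain : Main m) (A t R c : ℕ) :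
    ∃ d : ℕ → ℕ, ∃ K : ℕ, ∃ C' : ℝ, 0 < C' ∧
      ∀ (N δ : ℕ) (L S : Finset (AffineSubspace ℝ (Fin (m + 1) → ℝ)))
        (P : Finset (Fin (m + 1) → ℝ)),
        (∀ l ∈ L, Module.finrank ℝ l.direction = 1) →
        Few (m + 1) d A N L →
        (∀ l ∈ L, N ≤ 2 * {x : Fin (m + 1) → ℝ | x ∈ P ∧ x ∈ l}.ncard) →
        K * δ ≤ N → S ⊆ L →
        ∀ (B : Finset (Fin (m + 1) →₀ ℕ))
          (b : (Fin (m + 1) →₀ ℕ) → ℕ → MvPolynomial (Fin (m + 1)) ℝ)
          (q : AffineSubspace ℝ (Fin (m + 1) → ℝ) → (Fin (m + 1) →₀ ℕ) → ℂ)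
          (β₀ : Fin (m + 1) →₀ ℕ),
          (∀ β ∈ B, β.degree ≤ t) →
          (∀ β ∈ B, (b β R).totalDegree ≤ c * δ) →
          β₀ ∈ B → (∀ l ∈ S, q l β₀ = 1) →
          (∀ l ∈ S, ∀ β ∈ B, ∀ x ∈ l,
            ∑ j ∈ Finset.range (R + 1), ((eval x (b β j) : ℝ) : ℂ) * (q l β) ^ j = 0) →
          (∀ l ∈ S, ∀ β ∈ B, ∃ x ∈ l, eval x (b β R) ≠ 0) →
          (∀ l ∈ S, ∀ x ∈ l, ∑ β ∈ B, q l β * ∏ i, ((x i : ℝ) : ℂ) ^ (β i) = 0) →
          C' * (S.card : ℝ) * (N : ℝ) ≤ (P.card : ℝ) := by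
  classical
  obtain ⟨d, C, hC, hleaf⟩ := leaf m hm hMain (A * 4 ^ m) t
  set T : ℕ := (t + 1) ^ (m + 1) with hT
  set M : ℕ := (R + 1) ^ T with hM
  have hM0 : 0 < M := pow_pos (Nat.succ_pos _) _
  refine ⟨d, 4 * (T * c), C / (4 * M), by positivity, ?_⟩
  intro N δ L S P hL hfew hP hKδ hSL B b q β₀ hBt hbdeg hβ₀ hq1 hrel hlead hsum
  -- the number of points on each class
  set N' : ℕ := (N + 3) / 4 with hN'
  have hN'4 : N ≤ 4 * N' := by omega
  -- labels
  let κ : AffineSubspace ℝ (Fin (m + 1) → ℝ) → (Fin (m + 1) →₀ ℕ) → ℂ :=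
    fun l β => if β ∈ B then q l β else 0
  have hκB : ∀ l, ∀ β ∈ B, κ l β = q l β := by
    intro l β hβ
    simp only [κ, if_pos hβ]
  set Λ : Finset ((Fin (m + 1) →₀ ℕ) → ℂ) := S.image κ with hΛ
  let Sκ : ((Fin (m + 1) →₀ ℕ) → ℂ) → Finset (AffineSubspace ℝ (Fin (m + 1) → ℝ)) :=
    fun k => S.filter (fun l => κ l = k)
  let Pκ : ((Fin (m + 1) →₀ ℕ) → ℂ) → Finset (Fin (m + 1) → ℝ) :=
    fun k => P.filter (fun x => (∀ β ∈ B, eval x (b β R) ≠ 0) ∧ ∀ β ∈ B,
      ∑ j ∈ Finset.range (R + 1), ((eval x (b β j) : ℝ) : ℂ) * (k β) ^ j = 0)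
  -- good points
  have hgood : ∀ l ∈ S, N' ≤ {x : Fin (m + 1) → ℝ | x ∈ P ∧ x ∈ l ∧
      ∀ β ∈ B, eval x (b β R) ≠ 0}.ncard := by
    intro l hl
    have hlL := hSL hl
    have h1 := hP l hlL
    have hfin : {x : Fin (m + 1) → ℝ | x ∈ P ∧ x ∈ l ∧
      ∀ β ∈ B, eval x (b β R) ≠ 0}.Finite := P.finite_toSet.subset (fun x hx => hx.1)
    have hcov : {x : Fin (m + 1) → ℝ | x ∈ P ∧ x ∈ l} ⊆
        {x : Fin (m + 1) → ℝ | x ∈ P ∧ x ∈ l ∧ ∀ β ∈ B, eval x (b β R) ≠ 0} ∪
        ⋃ β ∈ B, {x : Fin (m + 1) → ℝ | x ∈ P ∧ x ∈ l ∧ eval x (b β R) = 0} := by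
      rintro x ⟨hx1, hx2⟩
      by_cases h : ∀ β ∈ B, eval x (b β R) ≠ 0
      · exact Or.inl ⟨hx1, hx2, h⟩
      · push Not at h
        obtain ⟨β, hβ, h⟩ := h
        right
        rw [Set.mem_iUnion₂]
        exact ⟨β, hβ, hx1, hx2, h⟩
    have hbad : (⋃ β ∈ B, {x : Fin (m + 1) → ℝ | x ∈ P ∧ x ∈ l ∧ eval x (b β R) = 0}).ncard
        ≤ T * (c * δ) := by
      have h2 : (⋃ β ∈ B, {x : Fin (m + 1) → ℝ | x ∈ P ∧ x ∈ l ∧ eval x (b β R) = 0}) =
          ((B.biUnion (fun β => P.filter (fun x => x ∈ l ∧ eval x (b β R) = 0)) :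
            Finset (Fin (m + 1) → ℝ)) : Set (Fin (m + 1) → ℝ)) := by
        ext x
        simp
      rw [h2, Set.ncard_coe_finset]
      refine Finset.card_biUnion_le.trans ?_
      have h3 : ∀ β ∈ B, (P.filter (fun x => x ∈ l ∧ eval x (b β R) = 0)).card ≤ c * δ := by
        intro β hβ
        have h4 := ncard_zeros_le P (hL l hlL) (b β R) (hlead l hl β hβ)
        have h5 : {x : Fin (m + 1) → ℝ | x ∈ P ∧ x ∈ l ∧ eval x (b β R) = 0} =
            ((P.filter (fun x => x ∈ l ∧ eval x (b β R) = 0) : Finset (Fin (m + 1) → ℝ)) :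
              Set (Fin (m + 1) → ℝ)) := by
          ext x
          simp
        rw [h5, Set.ncard_coe_finset] at h4
        exact h4.trans (hbdeg β hβ)
      calc ∑ β ∈ B, (P.filter (fun x => x ∈ l ∧ eval x (b β R) = 0)).card
          ≤ ∑ _β ∈ B, c * δ := Finset.sum_le_sum h3
        _ = B.card * (c * δ) := by rw [Finset.sum_const, smul_eq_mul]
        _ ≤ T * (c * δ) := Nat.mul_le_mul_right _ (card_exponents B hBt)
    have h6 : {x : Fin (m + 1) → ℝ | x ∈ P ∧ x ∈ l}.ncard ≤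
        {x : Fin (m + 1) → ℝ | x ∈ P ∧ x ∈ l ∧ ∀ β ∈ B, eval x (b β R) ≠ 0}.ncard +
          T * (c * δ) := by
      refine (Set.ncard_le_ncard hcov ?_).trans
        ((Set.ncard_union_le _ _).trans (Nat.add_le_add_left hbad _))
      refine hfin.union ?_
      refine Set.Finite.biUnion B.finite_toSet ?_
      intro β _
      exact P.finite_toSet.subset (fun x hx => hx.1)
    have h7 : 4 * (T * c) * δ = 4 * (T * (c * δ)) := by ring
    rw [h7] at hKδ
    omega
  -- each class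
  have hclass : ∀ k ∈ Λ, C * ((Sκ k).card : ℝ) * (N' : ℝ) ≤ ((Pκ k).card : ℝ) := by
    intro k hk
    set Q : MvPolynomial (Fin (m + 1)) ℝ := ∑ β ∈ B, monomial β (k β).re with hQ
    have hk1 : k β₀ = 1 := by
      rw [hΛ, Finset.mem_image] at hk
      obtain ⟨l, hl, rfl⟩ := hk
      rw [hκB l β₀ hβ₀, hq1 l hl]
    have hQ0 : Q ≠ 0 := by
      intro h0
      have h1 : coeff β₀ Q = 1 := by
        rw [hQ, coeff_sum]
        simp only [coeff_monomial]
        rw [Finset.sum_ite_eq' B β₀ (fun β => (k β).re), if_pos hβ₀, hk1, Complex.one_re]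
      rw [h0, coeff_zero] at h1
      exact zero_ne_one h1
    have hQt : Q.totalDegree ≤ t := by
      rw [hQ]
      refine totalDegree_finsetSum_le ?_
      intro β hβ
      refine (totalDegree_monomial_le _ _).trans ?_
      have h1 := hBt β hβ
      rwa [Finsupp.degree_apply] at h1
    refine hleaf N' (Sκ k) (Pκ k) Q hQ0 hQt ?_ ?_ ?_ ?_
    · intro l hl
      exact hL l (hSL (Finset.mem_filter.1 hl).1)
    · intro l hl x hx
      rw [Finset.mem_filter] at hl
      obtain ⟨hlS, hlk⟩ := hl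
      have h1 := hsum l hlS x hx
      have h2 := congrArg Complex.re h1
      rw [Complex.re_sum, Complex.zero_re] at h2
      rw [hQ, map_sum, ← h2]
      refine Finset.sum_congr rfl ?_
      intro β hβ
      rw [eval_monomial, Finsupp.prod_fintype _ _ (by intro i; simp)]
      have h3 : (∏ i, ((x i : ℝ) : ℂ) ^ (β i)) = ((∏ i, (x i) ^ (β i) : ℝ) : ℂ) := by
        push_cast
        rfl
      rw [h3, Complex.re_mul_ofReal, ← hκB l β hβ, hlk]
    · refine (hfew.mono_set (L' := Sκ k) ?_).mono (fun r _ _ => le_rfl) ?_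
      · intro l hl
        exact hSL (Finset.mem_filter.1 hl).1
      · intro r hr1 hr2
        have h1 : (N : ℝ) ≤ 4 * (N' : ℝ) := by exact_mod_cast hN'4
        have h2 : (N : ℝ) ^ (r - 1) ≤ (4 * (N' : ℝ)) ^ (r - 1) :=
          pow_le_pow_left₀ (Nat.cast_nonneg _) h1 _
        calc (A : ℝ) * (N : ℝ) ^ (r - 1) ≤ A * (4 * (N' : ℝ)) ^ (r - 1) :=
              mul_le_mul_of_nonneg_left h2 (Nat.cast_nonneg _)
          _ = (A * 4 ^ (r - 1)) * (N' : ℝ) ^ (r - 1) := by rw [mul_pow]; ring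
          _ ≤ (A * 4 ^ m) * (N' : ℝ) ^ (r - 1) := by
              refine mul_le_mul_of_nonneg_right ?_ (by positivity)
              refine mul_le_mul_of_nonneg_left ?_ (Nat.cast_nonneg _)
              exact pow_le_pow_right₀ (by norm_num) (by omega)
          _ = ((A * 4 ^ m : ℕ) : ℝ) * (N' : ℝ) ^ (r - 1) := by push_cast; ring
    · intro l hl
      rw [Finset.mem_filter] at hl
      obtain ⟨hlS, hlk⟩ := hl
      refine (hgood l hlS).trans ?_
      refine Set.ncard_le_ncard ?_ ((Pκ k).finite_toSet.subset (fun x hx => hx.1))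
      rintro x ⟨hx1, hx2, hx3⟩
      refine ⟨?_, hx2⟩
      rw [Finset.mem_filter]
      refine ⟨hx1, hx3, ?_⟩
      intro β hβ
      have h1 := hrel l hlS β hβ x hx2
      rwa [← hκB l β hβ, hlk] at h1
  -- sum over the classes
  have hsumS : ∑ k ∈ Λ, ((Sκ k).card : ℝ) = (S.card : ℝ) := by
    have h1 : S.card = ∑ k ∈ Λ, (Sκ k).card :=
      Finset.card_eq_sum_card_fiberwise (fun l hl => Finset.mem_image_of_mem κ hl)
    rw [h1]
    push_cast
    rfl
  have hsumP : ∑ k ∈ Λ, ((Pκ k).card : ℝ) ≤ (M : ℝ) * (P.card : ℝ) := by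
    have h1 : ∑ k ∈ Λ, (Pκ k).card ≤ M * P.card := by
      have h2 : ∑ k ∈ Λ, (Pκ k).card = ∑ x ∈ P, (Λ.filter (fun k =>
          (∀ β ∈ B, eval x (b β R) ≠ 0) ∧ ∀ β ∈ B,
            ∑ j ∈ Finset.range (R + 1), ((eval x (b β j) : ℝ) : ℂ) * (k β) ^ j = 0)).card := by
        simp only [Pκ, Finset.card_filter]
        exact Finset.sum_comm
      rw [h2, mul_comm, ← smul_eq_mul, ← Finset.sum_const]
      refine Finset.sum_le_sum ?_
      intro x _
      by_cases hx : ∀ β ∈ B, eval x (b β R) ≠ 0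
      · refine (card_labels B R (fun β j => ((eval x (b β j) : ℝ) : ℂ)) ?_ _ ?_ ?_).trans ?_
        · intro β hβ
          exact_mod_cast hx β hβ
        · intro k hk β hβ
          rw [Finset.mem_filter, hΛ, Finset.mem_image] at hk
          obtain ⟨⟨l, -, rfl⟩, -⟩ := hk
          simp only [κ, if_neg hβ]
        · intro k hk β hβ
          rw [Finset.mem_filter] at hk
          exact hk.2.2 β hβ
        · calc R ^ B.card ≤ (R + 1) ^ B.card := Nat.pow_le_pow_left (Nat.le_succ _) _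
            _ ≤ (R + 1) ^ T := Nat.pow_le_pow_right (Nat.succ_pos _) (card_exponents B hBt)
      · rw [Finset.filter_eq_empty_iff.2]
        · rw [Finset.card_empty]
          exact Nat.zero_le _
        · intro k _ h
          exact hx h.1
    exact_mod_cast h1
  have hN'r : (N : ℝ) ≤ 4 * (N' : ℝ) := by exact_mod_cast hN'4
  have hMr : (0 : ℝ) < M := by exact_mod_cast hM0
  have h1 : C * (S.card : ℝ) * (N' : ℝ) ≤ (M : ℝ) * (P.card : ℝ) := by
    calc C * (S.card : ℝ) * (N' : ℝ) = ∑ k ∈ Λ, C * ((Sκ k).card : ℝ) * (N' : ℝ) := by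
          rw [← hsumS, Finset.mul_sum, Finset.sum_mul]
      _ ≤ ∑ k ∈ Λ, ((Pκ k).card : ℝ) := Finset.sum_le_sum hclass
      _ ≤ _ := hsumP
  calc C / (4 * M) * (S.card : ℝ) * (N : ℝ) ≤ C / (4 * M) * (S.card : ℝ) * (4 * (N' : ℝ)) := by
        refine mul_le_mul_of_nonneg_left hN'r (by positivity)
    _ = (C * (S.card : ℝ) * (N' : ℝ)) / M := by
        field_simp
    _ ≤ (P.card : ℝ) := by
        rw [div_le_iff₀ hMr, mul_comm (P.card : ℝ)]
        exact h1

end

end Pool.Agent.H7.Kakeya
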