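import Pool.Agent.H7.Kakeya.Proj

/-! The induction statement and the step where all lines lie in one hypersurface of bounded degree. -/

set_option autoImplicit false

namespace Pool.Agent.H7.Kakeya

open MvPolynomial

noncomputable section

/-- The real zero set of `S`. -/
def zset {n : ℕ} (S : Set (MvPolynomial (Fin n) ℝ)) : Set (Fin n → ℝ) :=
  {x : Fin n → ℝ | ∀ p ∈ S, MvPolynomial.eval x p = 0}

/-- The hypothesis on lines in low dimensional sets. -/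
def Few (n : ℕ) (d : ℕ → ℕ) (A : ℕ) (N : ℕ) (L : Finset (AffineSubspace ℝ (Fin n → ℝ))) : Prop :=
  ∀ r : ℕ, 1 < r → r < n → ∀ S : Set (MvPolynomial (Fin n) ℝ),
    (∀ p ∈ S, p.totalDegree ≤ d r) → vdim S ≤ (((r : ℕ∞)) : WithBot ℕ∞) →
    ({l : AffineSubspace ℝ (Fin n → ℝ) | l ∈ L ∧ (l : Set (Fin n → ℝ)) ⊆ zset S}.ncard : ℝ)
      ≤ A * (N : ℝ) ^ (r - 1)

/-- The induction statement. -/
def Main (n : ℕ) : Prop :=
  ∀ A : ℕ, ∃ d : ℕ → ℕ, ∃ C : ℝ, 0 < C ∧
    ∀ N : ℕ, ∀ L : Finset (AffineSubspace ℝ (Fin n → ℝ)), ∀ P : Finset (Fin n → ℝ),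
      (∀ l ∈ L, Module.finrank ℝ l.direction = 1) →
      (L.card : ℝ) ≤ A * (N : ℝ) ^ (n - 1) →
      Few n d A N L →
      (∀ l ∈ L, N ≤ {x : Fin n → ℝ | x ∈ P ∧ x ∈ l}.ncard) →
      C * (L.card : ℝ) * (N : ℝ) ≤ (P.card : ℝ)

theorem Few.mono_set {n : ℕ} {d : ℕ → ℕ} {A N : ℕ}
    {L L' : Finset (AffineSubspace ℝ (Fin n → ℝ))} (h : Few n d A N L) (hL : L' ⊆ L) :
    Few n d A N L' := by
  intro r hr1 hr2 S hS hdim
  refine le_trans ?_ (h r hr1 hr2 S hS hdim)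
  have : {l : AffineSubspace ℝ (Fin n → ℝ) | l ∈ L' ∧ (l : Set (Fin n → ℝ)) ⊆ zset S}.ncard ≤
      {l : AffineSubspace ℝ (Fin n → ℝ) | l ∈ L ∧ (l : Set (Fin n → ℝ)) ⊆ zset S}.ncard := by
    refine Set.ncard_le_ncard ?_ ?_
    · rintro l ⟨h1, h2⟩
      exact ⟨hL h1, h2⟩
    · exact L.finite_toSet.subset (fun l hl => hl.1)
  exact_mod_cast this

theorem Few.mono {n : ℕ} {d d' : ℕ → ℕ} {A A' N N' : ℕ}
    {L : Finset (AffineSubspace ℝ (Fin n → ℝ))} (h : Few n d A N L)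
    (hd : ∀ r, 1 < r → r < n → d' r ≤ d r) (hA : ∀ r, 1 < r → r < n →
      (A : ℝ) * (N : ℝ) ^ (r - 1) ≤ A' * (N' : ℝ) ^ (r - 1)) :
    Few n d' A' N' L := by
  intro r hr1 hr2 S hS hdim
  exact (h r hr1 hr2 S (fun p hp => (hS p hp).trans (hd r hr1 hr2)) hdim).trans (hA r hr1 hr2)

theorem injOn_proj {m : ℕ} {u : Fin m → ℝ} {l : AffineSubspace ℝ (Fin (m + 1) → ℝ)}
    (h : ∀ v ∈ l.direction, v ≠ 0 → proj u v ≠ 0) :
    Set.InjOn (proj u) (l : Set (Fin (m + 1) → ℝ)) := by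
  intro x hx y hy hxy
  by_contra hne
  refine h (x - y) (AffineSubspace.vsub_mem_direction hx hy) (sub_ne_zero.2 hne) ?_
  rw [map_sub, hxy, sub_self]

/-- If all lines lie in one hypersurface of degree at most `t`, project and use `Main m`. -/
theorem leaf (m : ℕ) (hm : 2 ≤ m) (hMain : Main m) (A t : ℕ) :
    ∃ d : ℕ → ℕ, ∃ C : ℝ, 0 < C ∧
      ∀ N : ℕ, ∀ L : Finset (AffineSubspace ℝ (Fin (m + 1) → ℝ)),
      ∀ P : Finset (Fin (m + 1) → ℝ), ∀ Q : MvPolynomial (Fin (m + 1)) ℝ,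
        Q ≠ 0 → Q.totalDegree ≤ t →
        (∀ l ∈ L, Module.finrank ℝ l.direction = 1) →
        (∀ l ∈ L, ∀ x ∈ l, eval x Q = 0) →
        Few (m + 1) d A N L →
        (∀ l ∈ L, N ≤ {x : Fin (m + 1) → ℝ | x ∈ P ∧ x ∈ l}.ncard) →
        C * (L.card : ℝ) * (N : ℝ) ≤ (P.card : ℝ) := by
  classical
  obtain ⟨d', C, hC, hmain⟩ := hMain A
  refine ⟨fun r => max (d' r) t, C, hC, ?_⟩
  intro N L P Q hQ0 hQt hL hLQ hfew hP
  obtain ⟨u, hu, hdir, hinj⟩ := exists_projection hm L hL Q hQ0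
  set f : (Fin (m + 1) → ℝ) →ᵃ[ℝ] (Fin m → ℝ) := (proj u).toAffineMap with hf
  have hfx : ∀ x, f x = proj u x := fun x => rfl
  set L' : Finset (AffineSubspace ℝ (Fin m → ℝ)) := L.image (fun l => l.map f) with hL'
  set P' : Finset (Fin m → ℝ) := P.image f with hP'
  have hcard : L'.card = L.card := Finset.card_image_of_injOn (fun l₁ h₁ l₂ h₂ h =>
    hinj l₁ h₁ l₂ h₂ h)
  have h1 : ∀ l ∈ L', Module.finrank ℝ l.direction = 1 := by
    intro l' hl'
    rw [hL', Finset.mem_image] at hl'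
    obtain ⟨l, hl, rfl⟩ := hl'
    obtain ⟨a, v, hv0, ha, hd, -⟩ := line_param (hL l hl)
    rw [AffineSubspace.map_direction, hd, Submodule.map_span, Set.image_singleton]
    refine finrank_span_singleton ?_
    refine hdir l hl v ?_ hv0
    rw [hd]
    exact Submodule.mem_span_singleton_self v
  have h2 : (L'.card : ℝ) ≤ A * (N : ℝ) ^ (m - 1) := by
    rw [hcard]
    have h3 := hfew m (by omega) (by omega) {Q} (by
      intro p hp
      rw [Set.mem_singleton_iff] at hp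
      subst hp
      exact hQt.trans (le_max_right _ _)) (vdim_le_of_mem (Set.mem_singleton Q) hQ0)
    refine le_trans ?_ h3
    have h4 : (L : Set (AffineSubspace ℝ (Fin (m + 1) → ℝ))) ⊆
        {l | l ∈ L ∧ (l : Set (Fin (m + 1) → ℝ)) ⊆ zset {Q}} := by
      intro l hl
      refine ⟨hl, ?_⟩
      intro x hx p hp
      rw [Set.mem_singleton_iff] at hp
      subst hp
      exact hLQ l hl x hx
    have h5 := Set.ncard_le_ncard h4 (L.finite_toSet.subset (fun l hl => hl.1))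
    rw [Set.ncard_coe_finset] at h5
    exact_mod_cast h5
  have h3 : Few m d' A N L' := by
    intro r hr1 hr2 S' hS' hdim
    set S : Set (MvPolynomial (Fin (m + 1)) ℝ) := (pull u) '' S' ∪ {Q} with hS
    have h4 := hfew r hr1 (by omega) S (by
      rintro p (⟨q, hq, rfl⟩ | hp)
      · exact ((totalDegree_pull_le u q).trans (hS' q hq)).trans (le_max_left _ _)
      · rw [Set.mem_singleton_iff] at hp
        subst hp
        exact hQt.trans (le_max_right _ _)) ((vdim_pullback S' u Q _ le_rfl hu).trans hdim)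
    refine le_trans ?_ h4
    have h5 : {l : AffineSubspace ℝ (Fin m → ℝ) | l ∈ L' ∧ (l : Set (Fin m → ℝ)) ⊆ zset S'} ⊆
        (fun l : AffineSubspace ℝ (Fin (m + 1) → ℝ) => l.map f) ''
          {l | l ∈ L ∧ (l : Set (Fin (m + 1) → ℝ)) ⊆ zset S} := by
      rintro l' ⟨hl', hlS⟩
      rw [hL', Finset.mem_image] at hl'
      obtain ⟨l, hl, rfl⟩ := hl'
      refine ⟨l, ⟨hl, ?_⟩, rfl⟩
      intro x hx
      rintro p (⟨q, hq, rfl⟩ | hp)
      · rw [eval_pull]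
        exact hlS (AffineSubspace.mem_map_of_mem f hx) q hq
      · rw [Set.mem_singleton_iff] at hp
        subst hp
        exact hLQ l hl x hx
    have hfin : {l | l ∈ L ∧ (l : Set (Fin (m + 1) → ℝ)) ⊆ zset S}.Finite :=
      L.finite_toSet.subset (fun l hl => hl.1)
    have h6 := (Set.ncard_le_ncard h5 (hfin.image _)).trans (Set.ncard_image_le hfin)
    exact_mod_cast h6
  have h4 : ∀ l ∈ L', N ≤ {x : Fin m → ℝ | x ∈ P' ∧ x ∈ l}.ncard := by
    intro l' hl'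
    rw [hL', Finset.mem_image] at hl'
    obtain ⟨l, hl, rfl⟩ := hl'
    refine (hP l hl).trans ?_
    have h5 : Set.InjOn f {x : Fin (m + 1) → ℝ | x ∈ P ∧ x ∈ l} := by
      intro x hx y hy hxy
      exact injOn_proj (hdir l hl) hx.2 hy.2 hxy
    rw [← Set.ncard_image_of_injOn h5]
    refine Set.ncard_le_ncard ?_ (P'.finite_toSet.subset (fun x hx => hx.1))
    rintro y ⟨x, ⟨hx1, hx2⟩, rfl⟩
    exact ⟨Finset.mem_image_of_mem _ hx1, AffineSubspace.mem_map_of_mem f hx2⟩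
  have h5 := hmain N L' P' h1 h2 h3 h4
  rw [hcard] at h5
  refine h5.trans ?_
  exact_mod_cast Finset.card_image_le

end

end Pool.Agent.H7.Kakeya
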