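import Pool.Agent.H7.Kakeya.Base

/-! Polynomials on lines, and existence of polynomials vanishing on small sets. -/

set_option autoImplicit false

namespace Pool.Agent.H7.Kakeya

open MvPolynomial

noncomputable section

/-- Restriction of a polynomial to the line `a + s v`. -/
def restr {n : ℕ} (a v : Fin n → ℝ) : MvPolynomial (Fin n) ℝ →ₐ[ℝ] Polynomial ℝ :=
  aeval (fun i => Polynomial.C (a i) + Polynomial.C (v i) * Polynomial.X)

theorem eval_restr {n : ℕ} (a v : Fin n → ℝ) (p : MvPolynomial (Fin n) ℝ) (s : ℝ) :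
    (restr a v p).eval s = eval (a + s • v) p := by
  unfold restr
  induction p using MvPolynomial.induction_on with
  | C c => simp
  | add p q hp hq => simp only [map_add, Polynomial.eval_add, hp, hq]
  | mul_X p i hp =>
    rw [map_mul, Polynomial.eval_mul, hp, map_mul, aeval_X, eval_X]
    simp only [Polynomial.eval_add, Polynomial.eval_C, Polynomial.eval_mul, Polynomial.eval_X,
      Pi.add_apply, Pi.smul_apply, smul_eq_mul]
    ring

theorem natDegree_restr_le {n : ℕ} (a v : Fin n → ℝ) (p : MvPolynomial (Fin n) ℝ) :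
    (restr a v p).natDegree ≤ p.totalDegree := by
  have hlin : ∀ i : Fin n, (Polynomial.C (a i) + Polynomial.C (v i) * Polynomial.X).natDegree
      ≤ 1 := by
    intro i
    refine (Polynomial.natDegree_add_le _ _).trans (max_le ?_ ?_)
    · rw [Polynomial.natDegree_C]; exact Nat.zero_le _
    · exact (Polynomial.natDegree_C_mul_le _ _).trans Polynomial.natDegree_X_le
  unfold restr
  rw [aeval_def, eval₂_eq]
  refine Polynomial.natDegree_sum_le_of_forall_le _ _ ?_
  intro β hβ
  rw [Polynomial.algebraMap_eq]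
  refine (Polynomial.natDegree_C_mul_le _ _).trans ?_
  refine (Polynomial.natDegree_prod_le _ _).trans ?_
  refine le_trans ?_ (le_totalDegree hβ)
  rw [Finsupp.sum]
  refine Finset.sum_le_sum ?_
  intro i _
  refine (Polynomial.natDegree_pow_le).trans ?_
  calc β i * _ ≤ β i * 1 := Nat.mul_le_mul_left _ (hlin i)
    _ = β i := mul_one _

/-- A polynomial that does not vanish identically on a line has at most `totalDegree` zeros
on it. -/
theorem ncard_zeros_le {n : ℕ} (P : Finset (Fin n → ℝ)) {l : AffineSubspace ℝ (Fin n → ℝ)}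
    (hl : Module.finrank ℝ l.direction = 1) (p : MvPolynomial (Fin n) ℝ)
    (hp : ∃ x ∈ l, eval x p ≠ 0) :
    {x : Fin n → ℝ | x ∈ P ∧ x ∈ l ∧ eval x p = 0}.ncard ≤ p.totalDegree := by
  classical
  obtain ⟨a, v, hv, -, -, hx⟩ := line_param hl
  have hne : restr a v p ≠ 0 := by
    obtain ⟨y, hy, hyp⟩ := hp
    obtain ⟨s, rfl⟩ := (hx y).1 hy
    intro h0
    apply hyp
    rw [← eval_restr, h0, Polynomial.eval_zero]
  have hsub : {x : Fin n → ℝ | x ∈ P ∧ x ∈ l ∧ eval x p = 0} ⊆
      (fun s : ℝ => a + s • v) '' ((restr a v p).roots.toFinset : Set ℝ) := by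
    rintro x ⟨-, hxl, hx0⟩
    obtain ⟨s, rfl⟩ := (hx x).1 hxl
    refine ⟨s, ?_, rfl⟩
    rw [Finset.mem_coe, Multiset.mem_toFinset, Polynomial.mem_roots hne, Polynomial.IsRoot.def,
      eval_restr]
    exact hx0
  calc {x : Fin n → ℝ | x ∈ P ∧ x ∈ l ∧ eval x p = 0}.ncard
      ≤ ((fun s : ℝ => a + s • v) '' ((restr a v p).roots.toFinset : Set ℝ)).ncard :=
        Set.ncard_le_ncard hsub ((Finset.finite_toSet _).image _)
    _ ≤ ((restr a v p).roots.toFinset : Set ℝ).ncard :=
        Set.ncard_image_le (Finset.finite_toSet _)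
    _ = (restr a v p).roots.toFinset.card := Set.ncard_coe_finset _
    _ ≤ (restr a v p).roots.card := Multiset.toFinset_card_le _
    _ ≤ (restr a v p).natDegree := Polynomial.card_roots' _
    _ ≤ p.totalDegree := natDegree_restr_le _ _ _

/-- A polynomial with more than `totalDegree` zeros on a line vanishes on it. -/
theorem vanish_of_ncard {n : ℕ} (P : Finset (Fin n → ℝ)) {l : AffineSubspace ℝ (Fin n → ℝ)}
    (hl : Module.finrank ℝ l.direction = 1) (p : MvPolynomial (Fin n) ℝ)
    (h : p.totalDegree < {x : Fin n → ℝ | x ∈ P ∧ x ∈ l ∧ eval x p = 0}.ncard) :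
    ∀ x ∈ l, eval x p = 0 := by
  by_contra hcon
  push Not at hcon
  exact absurd (ncard_zeros_le P hl p hcon) (not_le.2 h)

/-- Dimension counting. -/
theorem exists_poly_vanishing {n : ℕ} (P : Finset (Fin n → ℝ)) (k : ℕ)
    (h : P.card < (k + 1) ^ n) :
    ∃ f : MvPolynomial (Fin n) ℝ, f ≠ 0 ∧ f.totalDegree ≤ n * k ∧ ∀ x ∈ P, eval x f = 0 := by
  classical
  -- exponents
  let ex : (Fin n → Fin (k + 1)) → (Fin n →₀ ℕ) := fun e => Finsupp.equivFunOnFinite.symm
    (fun i => (e i : ℕ))
  have hex : Function.Injective ex := by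
    intro e e' hee
    funext i
    have := DFunLike.congr_fun hee i
    exact Fin.ext this
  let Φ : ((Fin n → Fin (k + 1)) → ℝ) →ₗ[ℝ] (P → ℝ) :=
    { toFun := fun c x => ∑ e, c e * ∏ i, (x.1 i) ^ (e i : ℕ)
      map_add' := by
        intro c c'
        funext x
        simp only [Pi.add_apply, add_mul, Finset.sum_add_distrib]
      map_smul' := by
        intro r c
        funext x
        simp only [Pi.smul_apply, smul_eq_mul, RingHom.id_apply, Finset.mul_sum, mul_assoc] }
  have hker : LinearMap.ker Φ ≠ ⊥ := by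
    refine LinearMap.ker_ne_bot_of_finrank_lt ?_
    rw [Module.finrank_fintype_fun_eq_card, Module.finrank_fintype_fun_eq_card,
      Fintype.card_coe, Fintype.card_fun, Fintype.card_fin, Fintype.card_fin]
    exact h
  obtain ⟨c, hc, hc0⟩ := Submodule.exists_mem_ne_zero_of_ne_bot hker
  set f : MvPolynomial (Fin n) ℝ := ∑ e, monomial (ex e) (c e) with hf
  have hcoeff : ∀ e, coeff (ex e) f = c e := by
    intro e
    rw [hf, coeff_sum]
    simp only [coeff_monomial]
    rw [Finset.sum_eq_single e]
    · rw [if_pos rfl]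
    · intro e' _ hne
      rw [if_neg (fun h => hne (hex h))]
    · intro h'
      exact absurd (Finset.mem_univ e) h'
  refine ⟨f, ?_, ?_, ?_⟩
  · intro h0
    apply hc0
    funext e
    rw [← hcoeff e, h0, coeff_zero, Pi.zero_apply]
  · rw [hf]
    refine totalDegree_finsetSum_le ?_
    intro e _
    refine (totalDegree_monomial_le _ _).trans ?_
    rw [Finsupp.sum_fintype _ _ (by intro i; rfl)]
    calc ∑ i, (ex e) i ≤ ∑ _i : Fin n, k := Finset.sum_le_sum (fun i _ => by
          simp only [ex, Finsupp.equivFunOnFinite_symm_apply_apply]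
          omega)
      _ = n * k := by simp
  · intro x hx
    have h1 := congrFun (LinearMap.mem_ker.1 hc) ⟨x, hx⟩
    rw [hf, map_sum]
    simp only [eval_monomial]
    refine Eq.trans ?_ h1
    refine Finset.sum_congr rfl ?_
    intro e _
    congr 1
    rw [Finsupp.prod_fintype _ _ (by intro i; simp)]
    rfl

end

end Pool.Agent.H7.Kakeya
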