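import Pool.Agent.H7.Kakeya.Label

/-! Finitary preparation: from a failure of `Main (m+1)` to sequences of configurations with
polynomials of degree `o(N)` vanishing on all lines with a nonvanishing partial derivative. -/

set_option autoImplicit false

namespace Pool.Agent.H7.Kakeya

open MvPolynomial

noncomputable section

/-- Directional derivative. -/
def dd {n : ℕ} (u : Fin n → ℝ) :
    Derivation ℝ (MvPolynomial (Fin n) ℝ) (MvPolynomial (Fin n) ℝ) :=
  mkDerivation ℝ (fun j => C (u j))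

theorem dd_X {n : ℕ} (u : Fin n → ℝ) (j : Fin n) : dd u (X j) = C (u j) :=
  mkDerivation_X _ _ _

theorem dd_C {n : ℕ} (u : Fin n → ℝ) (c : ℝ) : dd u (C c : MvPolynomial (Fin n) ℝ) = 0 := by
  have := (dd u).map_algebraMap c
  rwa [algebraMap_eq] at this

theorem dd_eq {n : ℕ} (u : Fin n → ℝ) (f : MvPolynomial (Fin n) ℝ) :
    dd u f = ∑ j, C (u j) * pderiv j f := by
  induction f using MvPolynomial.induction_on with
  | C c =>
    rw [dd_C]
    simp only [pderiv_C, mul_zero, Finset.sum_const_zero]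
  | add p q hp hq =>
    simp only [map_add, hp, hq, mul_add, Finset.sum_add_distrib]
  | mul_X p i hp =>
    rw [Derivation.leibniz, hp, dd_X]
    simp only [Derivation.leibniz, pderiv_X, smul_eq_mul, mul_add, Finset.sum_add_distrib]
    congr 1
    · rw [Finset.sum_eq_single i]
      · simp only [Pi.single_eq_same]
        ring
      · intro j _ hj
        rw [Pi.single_eq_of_ne hj.symm, mul_zero, mul_zero]
      · intro h
        exact absurd (Finset.mem_univ i) h
    · rw [Finset.mul_sum]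
      refine Finset.sum_congr rfl ?_
      intro j _
      ring

theorem totalDegree_pderiv_le {n : ℕ} (j : Fin n) (f : MvPolynomial (Fin n) ℝ) :
    (pderiv j f).totalDegree ≤ f.totalDegree := by
  conv_lhs => rw [f.as_sum]
  rw [map_sum]
  refine totalDegree_finsetSum_le ?_
  intro β hβ
  rw [pderiv_monomial]
  refine (totalDegree_monomial_le _ _).trans ?_
  refine le_trans ?_ (le_totalDegree hβ)
  rw [Finsupp.sum_fintype _ _ (by intro i; rfl), Finsupp.sum_fintype _ _ (by intro i; rfl)]
  refine Finset.sum_le_sum ?_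
  intro i _
  rw [Finsupp.tsub_apply]
  exact Nat.sub_le _ _

theorem totalDegree_dd_le {n : ℕ} (u : Fin n → ℝ) (f : MvPolynomial (Fin n) ℝ) :
    (dd u f).totalDegree ≤ f.totalDegree := by
  rw [dd_eq]
  refine totalDegree_finsetSum_le ?_
  intro j _
  refine (totalDegree_mul _ _).trans ?_
  rw [totalDegree_C, zero_add]
  exact totalDegree_pderiv_le j f

theorem totalDegree_iter_le {n : ℕ} (u : Fin n → ℝ) (f : MvPolynomial (Fin n) ℝ) (k : ℕ) :
    ((dd u)^[k] f).totalDegree ≤ f.totalDegree := by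
  induction k with
  | zero => exact le_rfl
  | succ k ih =>
    rw [Function.iterate_succ_apply']
    exact (totalDegree_dd_le _ _).trans ih

theorem derivative_restr {n : ℕ} (a u : Fin n → ℝ) (f : MvPolynomial (Fin n) ℝ) :
    Polynomial.derivative (restr a u f) = restr a u (dd u f) := by
  induction f using MvPolynomial.induction_on with
  | C c =>
    have h1 : dd u (C c : MvPolynomial (Fin n) ℝ) = 0 := by
      have := (dd u).map_algebraMap c
      rwa [algebraMap_eq] at this
    rw [h1, map_zero]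
    unfold restr
    rw [aeval_C, Polynomial.algebraMap_eq, Polynomial.derivative_C]
  | add p q hp hq => simp only [map_add, hp, hq]
  | mul_X p i hp =>
    have h1 : restr a u (X i) = Polynomial.C (a i) + Polynomial.C (u i) * Polynomial.X := by
      unfold restr
      rw [aeval_X]
    have h2 : ∀ c : ℝ, restr a u (C c) = Polynomial.C c := by
      intro c
      unfold restr
      rw [aeval_C, Polynomial.algebraMap_eq]
    rw [map_mul, Polynomial.derivative_mul, hp, Derivation.leibniz, dd_X, map_add, smul_eq_mul,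
      smul_eq_mul, map_mul, map_mul, h1, h2]
    simp only [Polynomial.derivative_add, Polynomial.derivative_C, Polynomial.derivative_mul,
      Polynomial.derivative_X]
    ring

theorem restr_monomial_top {n : ℕ} (a u : Fin n → ℝ) (β : Fin n →₀ ℕ) (c : ℝ) :
    (restr a u (monomial β c)).natDegree ≤ β.degree ∧
      (restr a u (monomial β c)).coeff β.degree = eval u (monomial β c) := by
  have h0 : restr a u (monomial β c) =
      Polynomial.C c * ∏ i ∈ (Finset.univ : Finset (Fin n)), (restr a u (X i)) ^ β i := by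
    rw [monomial_eq, map_mul, Finsupp.prod_fintype _ _ (by intro i; simp), map_prod]
    congr 1
    · unfold restr
      rw [aeval_C]
      rfl
    · simp only [map_pow]
  have hX : ∀ i, restr a u (X i) = Polynomial.C (a i) + Polynomial.C (u i) * Polynomial.X := by
    intro i
    unfold restr
    rw [aeval_X]
  have h1 := prod_pow_lin (Finset.univ : Finset (Fin n)) (fun i => restr a u (X i))
    (fun i => by
      rw [hX]
      refine (Polynomial.natDegree_add_le _ _).trans (max_le ?_ ?_)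
      · rw [Polynomial.natDegree_C]; exact Nat.zero_le _
      · exact (Polynomial.natDegree_C_mul_le _ _).trans Polynomial.natDegree_X_le) β
  have h2 : β.degree = ∑ i, β i := by
    rw [Finsupp.degree_eq_sum]
  rw [h0, h2]
  refine ⟨?_, ?_⟩
  · exact (Polynomial.natDegree_C_mul_le _ _).trans h1.1
  · rw [Polynomial.coeff_C_mul, h1.2]
    have h3 : ∀ i, (restr a u (X i)).coeff 1 = u i := by
      intro i
      rw [hX]
      simp [Polynomial.coeff_C]
    simp only [h3]
    rw [eval_monomial, Finsupp.prod_fintype _ _ (by intro i; simp)]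

theorem restr_top {n : ℕ} (a u : Fin n → ℝ) (p : MvPolynomial (Fin n) ℝ) (e : ℕ)
    (he : p.totalDegree ≤ e) :
    (restr a u p).coeff e = eval u (homogeneousComponent e p) := by
  have key : ∀ β ∈ p.support,
      (restr a u (monomial β (coeff β p))).coeff e =
        eval u (if β.degree = e then monomial β (coeff β p) else 0) := by
    intro β hβ
    have h1 : β.degree ≤ e := by
      refine le_trans ?_ he
      have := le_totalDegree hβ
      rwa [Finsupp.sum, ← Finsupp.degree_apply] at this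
    obtain ⟨h2, h3⟩ := restr_monomial_top a u β (coeff β p)
    split_ifs with h4
    · rw [← h4]; exact h3
    · rw [map_zero]
      exact Polynomial.coeff_eq_zero_of_natDegree_lt (lt_of_le_of_lt h2 (lt_of_le_of_ne h1 h4))
  have hp : restr a u p = ∑ β ∈ p.support, restr a u (monomial β (coeff β p)) := by
    conv_lhs => rw [p.as_sum]
    rw [map_sum]
  rw [hp, Polynomial.finsetSum_coeff, Finset.sum_congr rfl key, ← map_sum]
  congr 1
  rw [homogeneousComponent_apply, Finset.sum_filter]

theorem iterate_derivative_restr {n : ℕ} (a u : Fin n → ℝ) (f : MvPolynomial (Fin n) ℝ) (k : ℕ) :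
    (Polynomial.derivative^[k]) (restr a u f) = restr a u ((dd u)^[k] f) := by
  induction k with
  | zero => rfl
  | succ k ih => rw [Function.iterate_succ_apply', Function.iterate_succ_apply', ih,
      derivative_restr]

/-- Some iterated derivative in a generic direction does not vanish at any given point. -/
theorem exists_iter_ne_zero {n : ℕ} (u : Fin n → ℝ) (f : MvPolynomial (Fin n) ℝ)
    (hu : eval u (homogeneousComponent f.totalDegree f) ≠ 0) (x : Fin n → ℝ) :
    ∃ k, k ≤ f.totalDegree ∧ eval x ((dd u)^[k] f) ≠ 0 := by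
  refine ⟨f.totalDegree, le_rfl, ?_⟩
  have h1 : eval x ((dd u)^[f.totalDegree] f) =
      ((Polynomial.derivative^[f.totalDegree]) (restr x u f)).eval 0 := by
    rw [iterate_derivative_restr, eval_restr, zero_smul, add_zero]
  rw [h1, ← Polynomial.coeff_zero_eq_eval_zero, Polynomial.coeff_iterate_derivative, zero_add,
    restr_top x u f _ le_rfl, nsmul_eq_mul]
  refine mul_ne_zero ?_ hu
  rw [Nat.descFactorial_self]
  exact_mod_cast (Nat.factorial_pos _).ne'

/-- Splitting according to the order of vanishing. -/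
theorem prep_single {m : ℕ} (N δ M : ℕ) (L : Finset (AffineSubspace ℝ (Fin (m + 1) → ℝ)))
    (P : Finset (Fin (m + 1) → ℝ)) (hL : ∀ l ∈ L, Module.finrank ℝ l.direction = 1)
    (hP : ∀ l ∈ L, N ≤ {x : Fin (m + 1) → ℝ | x ∈ P ∧ x ∈ l}.ncard)
    (f : MvPolynomial (Fin (m + 1)) ℝ) (hf0 : f ≠ 0) (hfδ : f.totalDegree ≤ δ)
    (hδN : 2 * δ ≤ N) (hfL : ∀ l ∈ L, ∀ x ∈ l, eval x f = 0)
    (hcard : M * P.card < L.card * N) :
    ∃ L' ⊆ L, ∃ P' ⊆ P, ∃ g : MvPolynomial (Fin (m + 1)) ℝ,
      M * P'.card < L'.card * N ∧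
      (∀ l ∈ L', N ≤ 2 * {x : Fin (m + 1) → ℝ | x ∈ P' ∧ x ∈ l}.ncard) ∧
      g.totalDegree ≤ δ ∧ (∀ l ∈ L', ∀ x ∈ l, eval x g = 0) ∧
      (∀ l ∈ L', ∃ k, ∃ x ∈ l, eval x (pderiv k g) ≠ 0) := by
  classical
  have htop : homogeneousComponent f.totalDegree f ≠ 0 := by
    obtain ⟨β, hβ, hβd⟩ : ∃ β ∈ f.support, f.totalDegree = β.degree := by
      have hne : f.support.Nonempty := by
        rwa [Finset.nonempty_iff_ne_empty, Ne, support_eq_empty]
      obtain ⟨β, hβ, h⟩ := Finset.exists_mem_eq_sup f.support hne (fun s => s.degree)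
      refine ⟨β, hβ, ?_⟩
      rw [← h]
      rfl
    intro h0
    have h1 := congrArg (coeff β) h0
    rw [coeff_homogeneousComponent, if_pos hβd.symm, coeff_zero] at h1
    exact (mem_support_iff.1 hβ) h1
  obtain ⟨w, hw⟩ := exists_generic (m := m) (Finset.univ : Finset Unit)
    (fun _ => homogeneousComponent f.totalDegree f)
    (fun _ _ => ⟨htop, _, homogeneousComponent_isHomogeneous _ _⟩)
  set u : Fin (m + 1) → ℝ := dirv w with hu
  have hu' : eval u (homogeneousComponent f.totalDegree f) ≠ 0 := hw () (Finset.mem_univ _)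
  have hpt : ∀ x : Fin (m + 1) → ℝ, ∃ k, eval x ((dd u)^[k] f) ≠ 0 := fun x => by
    obtain ⟨k, -, hk⟩ := exists_iter_ne_zero u f hu' x
    exact ⟨k, hk⟩
  -- orders
  let bp : (Fin (m + 1) → ℝ) → ℕ := fun x => Nat.find (hpt x)
  have hbp : ∀ x, eval x ((dd u)^[bp x] f) ≠ 0 := fun x => Nat.find_spec (hpt x)
  have hbp_min : ∀ x k, k < bp x → eval x ((dd u)^[k] f) = 0 := by
    intro x k hk
    have := Nat.find_min (hpt x) hk
    push Not at this
    exact this
  have hbp_le : ∀ x, bp x ≤ f.totalDegree := by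
    intro x
    obtain ⟨k, hk, hk'⟩ := exists_iter_ne_zero u f hu' x
    exact (Nat.find_min' (hpt x) hk').trans hk
  -- order of a line: minimum over its points
  let bl : AffineSubspace ℝ (Fin (m + 1) → ℝ) → ℕ := fun l => sInf (bp '' (l : Set _))
  have hne : ∀ l ∈ L, (l : Set (Fin (m + 1) → ℝ)).Nonempty := by
    intro l hl
    obtain ⟨a, v, -, ha, -, -⟩ := line_param (hL l hl)
    exact ⟨a, ha⟩
  have hbl_mem : ∀ l ∈ L, ∃ x ∈ l, bp x = bl l := by
    intro l hl
    have := Nat.sInf_mem ((hne l hl).image bp)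
    exact this
  have hbl_le : ∀ l, ∀ x ∈ l, bl l ≤ bp x := by
    intro l x hx
    exact Nat.sInf_le ⟨x, hx, rfl⟩
  let Lk : ℕ → Finset (AffineSubspace ℝ (Fin (m + 1) → ℝ)) := fun k => L.filter (fun l => bl l = k)
  let Pk : ℕ → Finset (Fin (m + 1) → ℝ) := fun k => P.filter (fun x => bp x = k)
  have hsumL : L.card = ∑ k ∈ Finset.range (f.totalDegree + 1), (Lk k).card := by
    refine Finset.card_eq_sum_card_fiberwise ?_
    intro l hl
    obtain ⟨x, hx, hxl⟩ := hbl_mem l hl
    rw [Finset.mem_coe, Finset.mem_range, ← hxl]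
    have := hbp_le x
    omega
  have hsumP : P.card = ∑ k ∈ Finset.range (f.totalDegree + 1), (Pk k).card := by
    refine Finset.card_eq_sum_card_fiberwise ?_
    intro x _
    rw [Finset.mem_coe, Finset.mem_range]
    have := hbp_le x
    omega
  obtain ⟨k, -, hk⟩ : ∃ k ∈ Finset.range (f.totalDegree + 1),
      M * (Pk k).card < (Lk k).card * N := by
    by_contra hcon
    push Not at hcon
    have h1 : ∑ k ∈ Finset.range (f.totalDegree + 1), (Lk k).card * N ≤
        ∑ k ∈ Finset.range (f.totalDegree + 1), M * (Pk k).card := Finset.sum_le_sum hcon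
    rw [← Finset.sum_mul, ← Finset.mul_sum, ← hsumL, ← hsumP] at h1
    omega
  -- the class has positive order
  have hLkne : (Lk k).Nonempty := by
    rw [← Finset.card_pos]
    by_contra hcon
    have : (Lk k).card = 0 := by omega
    rw [this, zero_mul] at hk
    exact absurd hk (Nat.not_lt_zero _)
  have hk0 : k ≠ 0 := by
    obtain ⟨l, hl⟩ := hLkne
    rw [Finset.mem_filter] at hl
    obtain ⟨x, hx, hxl⟩ := hbl_mem l hl.1
    intro h0
    have h1 := hbp x
    rw [hxl, hl.2, h0, Function.iterate_zero_apply] at h1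
    exact h1 (hfL l hl.1 x hx)
  obtain ⟨k', rfl⟩ := Nat.exists_eq_succ_of_ne_zero hk0
  refine ⟨Lk (k' + 1), Finset.filter_subset _ _, Pk (k' + 1), Finset.filter_subset _ _,
    (dd u)^[k'] f, hk, ?_, (totalDegree_iter_le _ _ _).trans hfδ, ?_, ?_⟩
  · intro l hl
    rw [Finset.mem_filter] at hl
    obtain ⟨hlL, hlk⟩ := hl
    obtain ⟨y, hy, hyl⟩ := hbl_mem l hlL
    have h1 := ncard_zeros_le P (hL l hlL) ((dd u)^[k' + 1] f) ⟨y, hy, by
      have := hbp y
      rwa [hyl, hlk] at this⟩
    have h2 := hP l hlL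
    have h3 : {x : Fin (m + 1) → ℝ | x ∈ P ∧ x ∈ l} ⊆
        {x : Fin (m + 1) → ℝ | x ∈ Pk (k' + 1) ∧ x ∈ l} ∪
        {x : Fin (m + 1) → ℝ | x ∈ P ∧ x ∈ l ∧ eval x ((dd u)^[k' + 1] f) = 0} := by
      rintro x ⟨hx1, hx2⟩
      by_cases h4 : eval x ((dd u)^[k' + 1] f) = 0
      · exact Or.inr ⟨hx1, hx2, h4⟩
      · left
        refine ⟨?_, hx2⟩
        rw [Finset.mem_filter]
        refine ⟨hx1, le_antisymm (Nat.find_min' (hpt x) h4) ?_⟩
        rw [← hlk]
        exact hbl_le l x hx2
    have h4 := (Set.ncard_le_ncard h3 (((Pk (k' + 1)).finite_toSet.subset (fun x hx => hx.1)).union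
      (P.finite_toSet.subset (fun x hx => hx.1)))).trans (Set.ncard_union_le _ _)
    have h5 := h1.trans ((totalDegree_iter_le u f (k' + 1)).trans hfδ)
    omega
  · intro l hl x hx
    rw [Finset.mem_filter] at hl
    refine hbp_min x k' ?_
    have := hbl_le l x hx
    rw [hl.2] at this
    omega
  · intro l hl
    rw [Finset.mem_filter] at hl
    obtain ⟨y, hy, hyl⟩ := hbl_mem l hl.1
    have h1 := hbp y
    rw [hyl, hl.2, Function.iterate_succ_apply', dd_eq, map_sum] at h1
    obtain ⟨j, -, hj⟩ := Finset.exists_ne_zero_of_sum_ne_zero h1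
    refine ⟨j, y, hy, ?_⟩
    rw [map_mul] at hj
    exact right_ne_zero_of_mul hj

/-- The data extracted from a failure of `Main (m + 1)`. -/
theorem prep {m : ℕ} (hfail : ¬ Main (m + 1)) :
    ∃ A : ℕ, ∀ i : ℕ, ∃ (N δ : ℕ) (L : Finset (AffineSubspace ℝ (Fin (m + 1) → ℝ)))
      (P : Finset (Fin (m + 1) → ℝ)) (g : MvPolynomial (Fin (m + 1)) ℝ),
      (∀ l ∈ L, Module.finrank ℝ l.direction = 1) ∧
      Few (m + 1) (fun _ => i) A N L ∧
      (∀ l ∈ L, N ≤ 2 * {x : Fin (m + 1) → ℝ | x ∈ P ∧ x ∈ l}.ncard) ∧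
      (i + 1) * P.card < L.card * N ∧
      (i + 1) * δ ≤ N ∧ 1 ≤ δ ∧ g.totalDegree ≤ δ ∧
      (∀ l ∈ L, ∀ x ∈ l, eval x g = 0) ∧
      (∀ l ∈ L, ∃ k, ∃ x ∈ l, eval x (pderiv k g) ≠ 0) := by
  classical
  unfold Main at hfail
  push Not at hfail
  obtain ⟨A, hA⟩ := hfail
  refine ⟨A, ?_⟩
  intro i
  set n : ℕ := m + 1 with hn
  set q : ℕ := n * (i + 2) with hq
  have hq0 : 0 < q := Nat.mul_pos (Nat.succ_pos _) (Nat.succ_pos _)
  have hqr : (0 : ℝ) < q := by exact_mod_cast hq0
  set Cc : ℝ := 1 / (((i : ℝ) + 1) * ((A : ℝ) + 1) * (q : ℝ) ^ n) with hCc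
  have hCc0 : 0 < Cc := by positivity
  obtain ⟨N, L, P, hL, hcardL, hfew, hP, hlt⟩ := hA (fun _ => i) Cc hCc0
  -- consequences
  have hpos : 0 < (L.card : ℝ) * (N : ℝ) := by
    have h1 : (0 : ℝ) < Cc * L.card * N := lt_of_le_of_lt (Nat.cast_nonneg _) hlt
    rw [mul_assoc] at h1
    exact (mul_pos_iff_of_pos_left hCc0).1 h1
  have hNpos : 0 < N := by
    rcases Nat.eq_zero_or_pos N with h | h
    · rw [h, Nat.cast_zero, mul_zero] at hpos
      exact absurd hpos (lt_irrefl _)
    · exact h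
  have hLpos : 0 < L.card := by
    rcases Nat.eq_zero_or_pos L.card with h | h
    · rw [h, Nat.cast_zero, zero_mul] at hpos
      exact absurd hpos (lt_irrefl _)
    · exact h
  set k : ℕ := N / q with hk
  have hk1 : q * k ≤ N := Nat.mul_div_le N q
  have hk2 : N < q * (k + 1) := Nat.lt_mul_div_succ N hq0
  -- the size of `P`
  have hPsmall : P.card < (k + 1) ^ n := by
    have h1 : (P.card : ℝ) < (k + 1 : ℝ) ^ n := by
      have h2 : (L.card : ℝ) * N ≤ A * (N : ℝ) ^ n := by
        calc (L.card : ℝ) * N ≤ (A * (N : ℝ) ^ (n - 1)) * N :=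
              mul_le_mul_of_nonneg_right hcardL (Nat.cast_nonneg _)
          _ = A * (N : ℝ) ^ n := by
              rw [mul_assoc, ← pow_succ, hn, Nat.add_sub_cancel]
      have h3 : (N : ℝ) ^ n ≤ (q : ℝ) ^ n * ((k : ℝ) + 1) ^ n := by
        rw [← mul_pow]
        refine pow_le_pow_left₀ (Nat.cast_nonneg _) ?_ _
        exact_mod_cast hk2.le
      calc (P.card : ℝ) < Cc * L.card * N := hlt
        _ = Cc * (L.card * N) := by ring
        _ ≤ Cc * (A * (N : ℝ) ^ n) := mul_le_mul_of_nonneg_left h2 hCc0.le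
        _ ≤ Cc * (((A : ℝ) + 1) * ((q : ℝ) ^ n * ((k : ℝ) + 1) ^ n)) := by
            refine mul_le_mul_of_nonneg_left ?_ hCc0.le
            refine mul_le_mul (by linarith) h3 (by positivity) (by positivity)
        _ = ((k : ℝ) + 1) ^ n / ((i : ℝ) + 1) := by
            rw [hCc]
            field_simp
        _ ≤ ((k : ℝ) + 1) ^ n := by
            refine div_le_self (by positivity) ?_
            have : (0 : ℝ) ≤ i := Nat.cast_nonneg _
            linarith
    exact_mod_cast h1
  obtain ⟨f, hf0, hfdeg, hfP⟩ := exists_poly_vanishing P k hPsmall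
  set δ : ℕ := n * k with hδ
  have hδN : (i + 2) * δ ≤ N := by
    calc (i + 2) * δ = q * k := by rw [hδ, hq]; ring
      _ ≤ N := hk1
  have hδ2 : 2 * δ ≤ N := le_trans (Nat.mul_le_mul_right _ (by omega)) hδN
  have hδ1 : (i + 1) * δ ≤ N := le_trans (Nat.mul_le_mul_right _ (by omega)) hδN
  have hδlt : δ < N := by
    rcases Nat.eq_zero_or_pos δ with h | h
    · rw [h]; exact hNpos
    · omega
  have hfL : ∀ l ∈ L, ∀ x ∈ l, eval x f = 0 := by
    intro l hl
    refine vanish_of_ncard P (hL l hl) f ?_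
    have h1 : {x : Fin n → ℝ | x ∈ P ∧ x ∈ l ∧ eval x f = 0} =
        {x : Fin n → ℝ | x ∈ P ∧ x ∈ l} := by
      ext x
      constructor
      · rintro ⟨h1, h2, -⟩
        exact ⟨h1, h2⟩
      · rintro ⟨h1, h2⟩
        exact ⟨h1, h2, hfP x h1⟩
    rw [h1]
    exact lt_of_le_of_lt hfdeg (lt_of_lt_of_le hδlt (hP l hl))
  have hcard : (i + 1) * P.card < L.card * N := by
    have h1 : ((i : ℝ) + 1) * P.card < L.card * N := by
      have h2 : ((i : ℝ) + 1) * Cc ≤ 1 := by
        rw [hCc]
        rw [mul_one_div, div_le_one (by positivity)]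
        have h3 : (1 : ℝ) ≤ ((A : ℝ) + 1) * (q : ℝ) ^ n := by
          have h4 : (1 : ℝ) ≤ (q : ℝ) ^ n := one_le_pow₀ (by exact_mod_cast hq0)
          have h5 : (1 : ℝ) ≤ (A : ℝ) + 1 := by
            have : (0 : ℝ) ≤ A := Nat.cast_nonneg _
            linarith
          calc (1 : ℝ) = 1 * 1 := by ring
            _ ≤ _ := mul_le_mul h5 h4 zero_le_one (by linarith)
        calc (i : ℝ) + 1 = ((i : ℝ) + 1) * 1 := by ring
          _ ≤ ((i : ℝ) + 1) * (((A : ℝ) + 1) * (q : ℝ) ^ n) :=
              mul_le_mul_of_nonneg_left h3 (by positivity)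
          _ = _ := by ring
      calc ((i : ℝ) + 1) * P.card < ((i : ℝ) + 1) * (Cc * L.card * N) :=
            mul_lt_mul_of_pos_left hlt (by positivity)
        _ = (((i : ℝ) + 1) * Cc) * (L.card * N) := by ring
        _ ≤ 1 * (L.card * N) := mul_le_mul_of_nonneg_right h2 hpos.le
        _ = L.card * N := one_mul _
    exact_mod_cast h1
  have hδpos : 1 ≤ δ := by
    by_contra hcon
    have h0 : f.totalDegree = 0 := by omega
    obtain ⟨l, hl⟩ := Finset.card_pos.1 hLpos
    obtain ⟨a, v, -, ha, -, -⟩ := line_param (hL l hl)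
    have h1 := hfL l hl a ha
    rw [totalDegree_eq_zero_iff_eq_C] at h0
    rw [h0, eval_C] at h1
    apply hf0
    rw [h0, h1, map_zero]
  obtain ⟨L', hL', P', hP', g, h1, h2, h3, h4, h5⟩ :=
    prep_single N δ (i + 1) L P hL hP f hf0 hfdeg hδ2 hfL hcard
  exact ⟨N, δ, L', P', g, fun l hl => hL l (hL' hl), hfew.mono_set hL', h2, h1, hδ1, hδpos, h3,
    h4, h5⟩

end

end Pool.Agent.H7.Kakeya
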