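import Pool.Agent.H7.Kakeya.Dim

/-! Generic projections of finite sets of lines. -/

set_option autoImplicit false

namespace Pool.Agent.H7.Kakeya

open MvPolynomial

noncomputable section

theorem line_param {n : ℕ} {l : AffineSubspace ℝ (Fin n → ℝ)}
    (h : Module.finrank ℝ l.direction = 1) :
    ∃ a v : Fin n → ℝ, v ≠ 0 ∧ a ∈ l ∧ l.direction = Submodule.span ℝ {v} ∧
      ∀ x, x ∈ l ↔ ∃ s : ℝ, x = a + s • v := by
  have hne : (l : Set (Fin n → ℝ)).Nonempty := by
    by_contra hcon
    rw [Set.not_nonempty_iff_eq_empty, AffineSubspace.coe_eq_bot_iff] at hcon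
    rw [hcon, AffineSubspace.direction_bot, finrank_bot] at h
    exact absurd h (by norm_num)
  obtain ⟨a, ha⟩ := hne
  obtain ⟨v, hv0, hv⟩ := finrank_eq_one_iff'.1 h
  have hdir : l.direction = Submodule.span ℝ {(v : Fin n → ℝ)} := by
    apply le_antisymm
    · intro w hw
      obtain ⟨c, hc⟩ := hv ⟨w, hw⟩
      rw [Submodule.mem_span_singleton]
      exact ⟨c, congrArg Subtype.val hc⟩
    · rw [Submodule.span_singleton_le_iff_mem]
      exact v.2
  refine ⟨a, v, fun h0 => hv0 (Subtype.ext h0), ha, hdir, fun x => ?_⟩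
  constructor
  · intro hx
    have h1 : x -ᵥ a ∈ l.direction := AffineSubspace.vsub_mem_direction hx ha
    rw [hdir, Submodule.mem_span_singleton] at h1
    obtain ⟨s, hs⟩ := h1
    refine ⟨s, ?_⟩
    rw [hs, vsub_eq_sub]
    abel
  · rintro ⟨s, rfl⟩
    have h1 : s • (v : Fin n → ℝ) ∈ l.direction := Submodule.smul_mem _ _ v.2
    have h2 := (AffineSubspace.vadd_mem_iff_mem_direction _ ha).2 h1
    rwa [vadd_eq_add, add_comm] at h2

/-- the direction `(1, u)`. -/
def dirv {m : ℕ} (u : Fin m → ℝ) : Fin (m + 1) → ℝ := Fin.cons 1 u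

theorem proj_eq_zero_iff {m : ℕ} (u : Fin m → ℝ) (x : Fin (m + 1) → ℝ) :
    proj u x = 0 ↔ x = x 0 • dirv u := by
  constructor
  · intro h
    funext i
    refine Fin.cases ?_ ?_ i
    · simp [dirv]
    · intro j
      have := congrFun h j
      rw [proj_apply, Pi.zero_apply] at this
      simp only [dirv, Pi.smul_apply, Fin.cons_succ, smul_eq_mul]
      linarith
  · intro h
    funext j
    have := congrFun h j.succ
    simp only [dirv, Pi.smul_apply, Fin.cons_succ, smul_eq_mul] at this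
    rw [proj_apply, Pi.zero_apply, this]
    ring

theorem exists_form {n : ℕ} (W : Submodule ℝ (Fin n → ℝ)) (h : Module.finrank ℝ W < n) :
    ∃ p : MvPolynomial (Fin n) ℝ, p.IsHomogeneous 1 ∧ p ≠ 0 ∧ ∀ w ∈ W, eval w p = 0 := by
  have hlt : W < ⊤ := by
    refine lt_of_le_of_ne le_top ?_
    intro hW
    rw [hW, finrank_top, Module.finrank_fin_fun] at h
    exact lt_irrefl _ h
  obtain ⟨f, hf0, hf⟩ := Submodule.exists_le_ker_of_lt_top W hlt
  set p : MvPolynomial (Fin n) ℝ := ∑ i, C (f (Pi.single i 1)) * X i with hp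
  have hev : ∀ x, eval x p = f x := by
    intro x
    rw [hp, map_sum]
    simp only [map_mul, eval_C, eval_X]
    conv_rhs => rw [pi_eq_sum_univ' x, map_sum]
    refine Finset.sum_congr rfl ?_
    intro i _
    rw [map_smul, smul_eq_mul, mul_comm]
  refine ⟨p, ?_, ?_, ?_⟩
  · refine MvPolynomial.IsHomogeneous.sum _ _ _ ?_
    intro i _
    have := (isHomogeneous_C (Fin n) (f (Pi.single i 1))).mul (isHomogeneous_X ℝ i)
    rwa [zero_add] at this
  · intro h0
    apply hf0
    ext x
    rw [LinearMap.coe_comp, Function.comp_apply]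
    rw [← hev, h0]
    simp
  · intro w hw
    rw [hev]
    exact hf hw

theorem eval_smul_homogeneous {n e : ℕ} {p : MvPolynomial (Fin n) ℝ} (hp : p.IsHomogeneous e)
    (c : ℝ) (x : Fin n → ℝ) : eval (c • x) p = c ^ e * eval x p := by
  rw [eval_eq, eval_eq, Finset.mul_sum]
  refine Finset.sum_congr rfl ?_
  intro β hβ
  have h1 : β.degree = e := by
    have := hp (mem_support_iff.1 hβ)
    rw [← this, Finsupp.degree_eq_weight_one]
    rfl
  have h2 : ∏ i ∈ β.support, (c • x) i ^ β i = c ^ e * ∏ i ∈ β.support, x i ^ β i := by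
    simp only [Pi.smul_apply, smul_eq_mul, mul_pow]
    rw [Finset.prod_mul_distrib, Finset.prod_pow_eq_pow_sum, ← h1]
    rfl
  rw [h2]
  ring

theorem exists_generic {m : ℕ} {ι : Type*} (s : Finset ι) (F : ι → MvPolynomial (Fin (m + 1)) ℝ)
    (hF : ∀ i ∈ s, F i ≠ 0 ∧ ∃ e, (F i).IsHomogeneous e) :
    ∃ u : Fin m → ℝ, ∀ i ∈ s, eval (dirv u) (F i) ≠ 0 := by
  classical
  have hP : (X 0 * ∏ i ∈ s, F i : MvPolynomial (Fin (m + 1)) ℝ) ≠ 0 := by
    refine mul_ne_zero (X_ne_zero 0) ?_
    rw [Finset.prod_ne_zero_iff]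
    intro i hi
    exact (hF i hi).1
  obtain ⟨x, hx⟩ : ∃ x : Fin (m + 1) → ℝ,
      eval x (X 0 * ∏ i ∈ s, F i : MvPolynomial (Fin (m + 1)) ℝ) ≠ 0 := by
    by_contra hcon
    push Not at hcon
    apply hP
    refine MvPolynomial.funext ?_
    intro x
    rw [hcon, map_zero]
  rw [map_mul, eval_X, map_prod] at hx
  have hx0 : x 0 ≠ 0 := left_ne_zero_of_mul hx
  have hxp := right_ne_zero_of_mul hx
  rw [Finset.prod_ne_zero_iff] at hxp
  refine ⟨fun i => x i.succ / x 0, ?_⟩
  intro i hi
  obtain ⟨_, e, he⟩ := hF i hi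
  have h1 : dirv (fun i => x i.succ / x 0) = (x 0)⁻¹ • x := by
    funext j
    refine Fin.cases ?_ ?_ j
    · simp [dirv, hx0]
    · intro k
      simp only [dirv, Fin.cons_succ, Pi.smul_apply, smul_eq_mul]
      rw [div_eq_inv_mul]
  rw [h1, eval_smul_homogeneous he]
  exact mul_ne_zero (pow_ne_zero _ (inv_ne_zero hx0)) (hxp i hi)

/-- A pair of distinct lines is separated by every projection outside a plane. -/
theorem pair_form {m : ℕ} (hm : 2 ≤ m) (l₁ l₂ : AffineSubspace ℝ (Fin (m + 1) → ℝ))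
    (h₁ : Module.finrank ℝ l₁.direction = 1) (h₂ : Module.finrank ℝ l₂.direction = 1) :
    ∃ p : MvPolynomial (Fin (m + 1)) ℝ, p.IsHomogeneous 1 ∧ p ≠ 0 ∧
      ∀ u : Fin m → ℝ, eval (dirv u) p ≠ 0 →
        (∀ v ∈ l₁.direction, v ≠ 0 → proj u v ≠ 0) ∧
        (l₁.map (proj u).toAffineMap = l₂.map (proj u).toAffineMap → l₁ = l₂) := by
  obtain ⟨a₁, v₁, hv₁, ha₁, hd₁, hl₁⟩ := line_param h₁
  obtain ⟨a₂, v₂, hv₂, ha₂, hd₂, hl₂⟩ := line_param h₂
  by_cases hd : l₁.direction = l₂.direction
  · -- parallel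
    obtain ⟨p, hp1, hp0, hpW⟩ := exists_form (l₁.direction ⊔ Submodule.span ℝ {a₁ - a₂}) (by
      have h3 := Submodule.finrank_add_le_finrank_add_finrank l₁.direction
        (Submodule.span ℝ {a₁ - a₂})
      have h4 : Module.finrank ℝ (Submodule.span ℝ {a₁ - a₂}) ≤ 1 :=
        (finrank_span_le_card (R := ℝ) {a₁ - a₂}).trans (by simp)
      omega)
    refine ⟨p, hp1, hp0, ?_⟩
    intro u hu
    refine ⟨?_, ?_⟩
    · intro v hv hv0 hpv
      rw [proj_eq_zero_iff] at hpv
      have h5 : v 0 ≠ 0 := by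
        intro h6
        rw [h6, zero_smul] at hpv
        exact hv0 hpv
      have h6 : eval v p = 0 := hpW v (Submodule.mem_sup_left hv)
      rw [hpv, eval_smul_homogeneous hp1, pow_one] at h6
      exact (mul_ne_zero h5 hu) h6
    · intro hmap
      have h5 : (proj u) a₁ ∈ l₂.map (proj u).toAffineMap := by
        rw [← hmap]
        exact AffineSubspace.mem_map_of_mem _ ha₁
      rw [AffineSubspace.mem_map] at h5
      obtain ⟨y, hy, hya⟩ := h5
      have h6 : proj u (a₁ - y) = 0 := by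
        rw [map_sub, ← hya]
        simp
      have h7 : a₁ - y ∈ l₁.direction ⊔ Submodule.span ℝ {a₁ - a₂} := by
        have h8 : a₁ - y = (a₂ - y) + (a₁ - a₂) := by abel
        rw [h8]
        refine Submodule.add_mem _ (Submodule.mem_sup_left ?_)
          (Submodule.mem_sup_right (Submodule.mem_span_singleton_self _))
        rw [hd]
        exact AffineSubspace.vsub_mem_direction ha₂ hy
      have h8 := hpW _ h7
      rw [proj_eq_zero_iff] at h6
      rw [h6, eval_smul_homogeneous hp1, pow_one] at h8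
      have h9 : (a₁ - y) 0 = 0 := by
        rcases mul_eq_zero.1 h8 with h | h
        · exact h
        · exact absurd h hu
      rw [h9, zero_smul, sub_eq_zero] at h6
      refine AffineSubspace.ext_of_direction_eq hd ⟨a₁, ha₁, ?_⟩
      rw [h6]
      exact hy
  · obtain ⟨p, hp1, hp0, hpW⟩ := exists_form (l₁.direction ⊔ l₂.direction) (by
      have h3 := Submodule.finrank_add_le_finrank_add_finrank l₁.direction l₂.direction
      omega)
    refine ⟨p, hp1, hp0, ?_⟩
    intro u hu
    have hker : ∀ v ∈ l₁.direction ⊔ l₂.direction, proj u v = 0 → v = 0 := by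
      intro v hv hpv
      rw [proj_eq_zero_iff] at hpv
      have h6 : eval v p = 0 := hpW v hv
      rw [hpv, eval_smul_homogeneous hp1, pow_one] at h6
      have h9 : v 0 = 0 := by
        rcases mul_eq_zero.1 h6 with h | h
        · exact h
        · exact absurd h hu
      rw [h9, zero_smul] at hpv
      exact hpv
    refine ⟨?_, ?_⟩
    · intro v hv hv0 hpv
      exact hv0 (hker v (Submodule.mem_sup_left hv) hpv)
    · intro hmap
      exfalso
      apply hd
      have h5 : (l₁.map (proj u).toAffineMap).direction = (l₂.map (proj u).toAffineMap).direction :=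
        by rw [hmap]
      rw [AffineSubspace.map_direction, AffineSubspace.map_direction] at h5
      have h6 : ∀ w₁ ∈ l₁.direction, w₁ ∈ l₂.direction := by
        intro w hw
        have h7 : proj u w ∈ l₂.direction.map (proj u).toAffineMap.linear := by
          rw [← h5]
          exact Submodule.mem_map_of_mem (f := (proj u).toAffineMap.linear) hw
        rw [Submodule.mem_map] at h7
        obtain ⟨y, hy, hyw⟩ := h7
        have h8 : proj u (w - y) = 0 := by
          rw [map_sub, ← hyw]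
          simp
        have h9 := hker (w - y) (Submodule.sub_mem _ (Submodule.mem_sup_left hw)
          (Submodule.mem_sup_right hy)) h8
        rw [sub_eq_zero] at h9
        rw [h9]
        exact hy
      exact Submodule.eq_of_le_of_finrank_eq h6 (by rw [h₁, h₂])

/-- Generic projection of a finite set of lines. -/
theorem exists_projection {m : ℕ} (hm : 2 ≤ m)
    (L : Finset (AffineSubspace ℝ (Fin (m + 1) → ℝ)))
    (hL : ∀ l ∈ L, Module.finrank ℝ l.direction = 1)
    (Q : MvPolynomial (Fin (m + 1)) ℝ) (hQ : Q ≠ 0) :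
    ∃ u : Fin m → ℝ, eval (dirv u) (homogeneousComponent Q.totalDegree Q) ≠ 0 ∧
      (∀ l ∈ L, ∀ v ∈ l.direction, v ≠ 0 → proj u v ≠ 0) ∧
      (∀ l₁ ∈ L, ∀ l₂ ∈ L,
        l₁.map (proj u).toAffineMap = l₂.map (proj u).toAffineMap → l₁ = l₂) := by
  classical
  have hpair : ∀ q : {l // l ∈ L} × {l // l ∈ L}, ∃ p : MvPolynomial (Fin (m + 1)) ℝ,
      p.IsHomogeneous 1 ∧ p ≠ 0 ∧
      ∀ u : Fin m → ℝ, eval (dirv u) p ≠ 0 →
        (∀ v ∈ q.1.1.direction, v ≠ 0 → proj u v ≠ 0) ∧
        (q.1.1.map (proj u).toAffineMap = q.2.1.map (proj u).toAffineMap → q.1.1 = q.2.1) :=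
    fun q => pair_form hm q.1.1 q.2.1 (hL _ q.1.2) (hL _ q.2.2)
  choose F hF1 hF0 hF using hpair
  have htop : homogeneousComponent Q.totalDegree Q ≠ 0 := by
    obtain ⟨β, hβ, hβd⟩ : ∃ β ∈ Q.support, Q.totalDegree = β.degree := by
      have hne : Q.support.Nonempty := by
        rwa [Finset.nonempty_iff_ne_empty, Ne, support_eq_empty]
      obtain ⟨β, hβ, h⟩ := Finset.exists_mem_eq_sup Q.support hne (fun s => s.degree)
      refine ⟨β, hβ, ?_⟩
      rw [← h]
      rfl
    intro h0
    have h1 := congrArg (coeff β) h0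
    rw [coeff_homogeneousComponent, if_pos hβd.symm, coeff_zero] at h1
    exact (mem_support_iff.1 hβ) h1
  obtain ⟨u, hu⟩ := exists_generic (Finset.univ : Finset (Option ({l // l ∈ L} × {l // l ∈ L})))
    (fun o => match o with
      | none => homogeneousComponent Q.totalDegree Q
      | some q => F q) (by
      intro o _
      match o with
      | none => exact ⟨htop, _, homogeneousComponent_isHomogeneous _ _⟩
      | some q => exact ⟨hF0 q, 1, hF1 q⟩)
  refine ⟨u, hu none (Finset.mem_univ _), ?_, ?_⟩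
  · intro l hl
    exact (hF (⟨l, hl⟩, ⟨l, hl⟩) u (hu (some _) (Finset.mem_univ _))).1
  · intro l₁ hl₁ l₂ hl₂
    exact (hF (⟨l₁, hl₁⟩, ⟨l₂, hl₂⟩) u (hu (some _) (Finset.mem_univ _))).2

end

end Pool.Agent.H7.Kakeya
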