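import Pool.Agent.H7.Kakeya.Prep

/-! The induction step, from the ultraproduct theorem. -/

set_option autoImplicit false

namespace Pool.Agent.H7.Kakeya

open MvPolynomial

noncomputable section

/-- The output of the ultraproduct argument (Theorem U). -/
def TheoremU (n : ℕ) : Prop :=
  ∀ (Lam : Type) (V : Ultrafilter Lam) (ix : Lam → ℕ) (a v : Lam → (Fin n → ℝ)) (δ : ℕ → ℕ)
    (g : ℕ → MvPolynomial (Fin n) ℝ),
    (∀ k, 1 ≤ δ k) → (∀ k, (g k).totalDegree ≤ δ k) →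
    (∀ᶠ l in (V : Filter Lam), ∀ s : ℝ, eval (a l + s • v l) (g (ix l)) = 0) →
    (∀ᶠ l in (V : Filter Lam), ∃ j, ∃ s : ℝ, eval (a l + s • v l) (pderiv j (g (ix l))) ≠ 0) →
    ∃ (t R c : ℕ) (β₀ : Fin n →₀ ℕ) (B : Finset (Fin n →₀ ℕ))
      (b : (Fin n →₀ ℕ) → ℕ → ℕ → MvPolynomial (Fin n) ℝ) (q : Lam → (Fin n →₀ ℕ) → ℂ),
      β₀ ∈ B ∧ (∀ β ∈ B, β.degree ≤ t) ∧
      (∀ β ∈ B, ∀ k, (b β R k).totalDegree ≤ c * δ k) ∧
      ∀ᶠ l in (V : Filter Lam), q l β₀ = 1 ∧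
        (∀ β ∈ B, ∀ s : ℝ, ∑ j ∈ Finset.range (R + 1),
          ((eval (a l + s • v l) (b β j (ix l)) : ℝ) : ℂ) * (q l β) ^ j = 0) ∧
        (∀ β ∈ B, ∃ s : ℝ, eval (a l + s • v l) (b β R (ix l)) ≠ 0) ∧
        (∀ s : ℝ, ∑ β ∈ B, q l β * ∏ j, (((a l + s • v l) j : ℝ) : ℂ) ^ (β j) = 0)

theorem main_succ (m : ℕ) (hm : 2 ≤ m) (hMain : Main m) (hU : TheoremU (m + 1)) :
    Main (m + 1) := by
  classical
  by_contra hfail
  obtain ⟨A, hA⟩ := prep hfail
  choose N δ L P g hL hfew hP hcard hδN hδ1 hgdeg hg0 hgd using hA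
  let Lam : Type := Σ k : ℕ, {l // l ∈ L k}
  let cnt : Set Lam → ℕ → ℕ := fun S k =>
    ({l : {l // l ∈ L k} | (⟨k, l⟩ : Lam) ∈ S}).ncard
  let small : Set Lam → Prop := fun S => ∃ c k₀ : ℕ, ∀ k, k₀ ≤ k →
    cnt S k * N k ≤ c * (P k).card
  have hempty : small ∅ := by
    refine ⟨0, 0, ?_⟩
    intro k _
    simp [cnt]
  have hmono : ∀ T, small T → ∀ S ⊆ T, small S := by
    rintro T ⟨c, k₀, h⟩ S hST
    refine ⟨c, k₀, fun k hk => le_trans (Nat.mul_le_mul_right _ ?_) (h k hk)⟩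
    exact Set.ncard_le_ncard (fun l hl => hST hl) (Set.toFinite _)
  have hunion : ∀ S, small S → ∀ T, small T → small (S ∪ T) := by
    rintro S ⟨c, k₀, h⟩ T ⟨c', k₀', h'⟩
    refine ⟨c + c', max k₀ k₀', ?_⟩
    intro k hk
    have h1 : cnt (S ∪ T) k ≤ cnt S k + cnt T k := by
      exact Set.ncard_union_le _ _
    calc cnt (S ∪ T) k * N k ≤ (cnt S k + cnt T k) * N k := Nat.mul_le_mul_right _ h1
      _ = cnt S k * N k + cnt T k * N k := by ring
      _ ≤ c * (P k).card + c' * (P k).card :=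
          add_le_add (h k (le_trans (le_max_left _ _) hk)) (h' k (le_trans (le_max_right _ _) hk))
      _ = _ := by ring
  have huniv : ¬ small Set.univ := by
    rintro ⟨c, k₀, h⟩
    have h1 := h (max c k₀) (le_max_right _ _)
    have h2 : cnt Set.univ (max c k₀) = (L (max c k₀)).card := by
      have h5 : {l : {l // l ∈ L (max c k₀)} | (⟨max c k₀, l⟩ : Lam) ∈ (Set.univ : Set Lam)} =
          Set.univ := Set.eq_univ_of_forall (fun l => Set.mem_univ _)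
      simp only [cnt, h5]
      rw [Set.ncard_univ, Nat.card_eq_fintype_card, Fintype.card_coe]
    rw [h2] at h1
    have h3 := hcard (max c k₀)
    have h4 : c * (P (max c k₀)).card ≤ (max c k₀ + 1) * (P (max c k₀)).card :=
      Nat.mul_le_mul_right _ (le_trans (le_max_left _ _) (Nat.le_succ _))
    omega
  let F : Filter Lam := Filter.comk small hempty hmono hunion
  have hF : F.NeBot := by
    rw [Filter.neBot_iff]
    intro hbot
    apply huniv
    have h1 : (∅ : Set Lam) ∈ F := by rw [hbot]; exact Filter.mem_bot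
    rw [Filter.mem_comk, Set.compl_empty] at h1
    exact h1
  let V : Ultrafilter Lam := Ultrafilter.of F
  have hVF : (V : Filter Lam) ≤ F := Ultrafilter.of_le F
  have hparam : ∀ l : Lam, ∃ av : (Fin (m + 1) → ℝ) × (Fin (m + 1) → ℝ),
      ∀ x, x ∈ l.2.1 ↔ ∃ s : ℝ, x = av.1 + s • av.2 := by
    intro l
    obtain ⟨a, v, -, -, -, h⟩ := line_param (hL l.1 l.2.1 l.2.2)
    exact ⟨(a, v), h⟩
  choose av hav using hparam
  have hmem : ∀ (l : Lam) (s : ℝ), (av l).1 + s • (av l).2 ∈ l.2.1 :=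
    fun l s => (hav l _).2 ⟨s, rfl⟩
  obtain ⟨t, R, c, β₀, B, b, q, hβ₀, hBt, hbdeg, hev⟩ := hU Lam V (fun l => l.1)
    (fun l => (av l).1) (fun l => (av l).2) δ g hδ1 hgdeg
    (Filter.Eventually.of_forall (fun l s => hg0 l.1 l.2.1 l.2.2 _ (hmem l s)))
    (Filter.Eventually.of_forall (fun l => by
      obtain ⟨k, x, hx, hne⟩ := hgd l.1 l.2.1 l.2.2
      obtain ⟨s, rfl⟩ := (hav l x).1 hx
      exact ⟨k, s, hne⟩))
  set S : Set Lam := {l | q l β₀ = 1 ∧
        (∀ β ∈ B, ∀ s : ℝ, ∑ j ∈ Finset.range (R + 1),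
          ((eval ((av l).1 + s • (av l).2) (b β j l.1) : ℝ) : ℂ) * (q l β) ^ j = 0) ∧
        (∀ β ∈ B, ∃ s : ℝ, eval ((av l).1 + s • (av l).2) (b β R l.1) ≠ 0) ∧
        (∀ s : ℝ, ∑ β ∈ B, q l β * ∏ j, ((((av l).1 + s • (av l).2) j : ℝ) : ℂ) ^ (β j) = 0)}
    with hS
  have hSV : S ∈ (V : Filter Lam) := hev
  have hSns : ¬ small S := by
    intro h
    have h1 : Sᶜ ∈ F := by
      rw [Filter.mem_comk, compl_compl]
      exact h
    have h2 : Sᶜ ∈ (V : Filter Lam) := hVF h1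
    have h3 := Filter.inter_mem hSV h2
    rw [Set.inter_compl_self] at h3
    exact V.neBot.ne (Filter.empty_mem_iff_bot.1 h3)
  apply hSns
  obtain ⟨d, K, C', hC', hstep⟩ := label_step m hm hMain A t R c
  obtain ⟨cc, hcc⟩ := exists_nat_ge (1 / C')
  refine ⟨cc, max K (∑ r ∈ Finset.range (m + 1), d r), ?_⟩
  intro k hk
  let Sk : Finset (AffineSubspace ℝ (Fin (m + 1) → ℝ)) :=
    (Set.toFinite {l : {l // l ∈ L k} | (⟨k, l⟩ : Lam) ∈ S}).toFinset.map
      (Function.Embedding.subtype _)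
  have hSkmem : ∀ l ∈ Sk, ∃ h : l ∈ L k, (⟨k, l, h⟩ : Lam) ∈ S := by
    intro l hl
    rw [Finset.mem_map] at hl
    obtain ⟨l', hl', rfl⟩ := hl
    rw [Set.Finite.mem_toFinset] at hl'
    exact ⟨l'.2, hl'⟩
  let q' : AffineSubspace ℝ (Fin (m + 1) → ℝ) → (Fin (m + 1) →₀ ℕ) → ℂ := fun l β =>
    if h : l ∈ L k then q ⟨k, l, h⟩ β else 0
  have hq' : ∀ l (h : l ∈ L k) β, q' l β = q ⟨k, l, h⟩ β := by
    intro l h β
    simp only [q', dif_pos h]
  have h1 := hstep (N k) (δ k) (L k) Sk (P k) (hL k) ((hfew k).mono (fun r _ hr2 => by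
      have h2 : d r ≤ ∑ r ∈ Finset.range (m + 1), d r :=
        Finset.single_le_sum (f := d) (fun _ _ => Nat.zero_le _) (Finset.mem_range.2 hr2)
      exact h2.trans ((le_max_right _ _).trans hk)) (fun r _ _ => le_rfl)) (hP k)
    (le_trans (Nat.mul_le_mul_right _ (((le_max_left _ _).trans hk).trans (Nat.le_succ k)))
      (hδN k))
    (fun l hl => (hSkmem l hl).1) B (fun β j => b β j k) q' β₀ hBt (fun β hβ => hbdeg β hβ k) hβ₀
    (fun l hl => by
      obtain ⟨h, hlS⟩ := hSkmem l hl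
      rw [hq' l h]
      exact hlS.1)
    (fun l hl β hβ x hx => by
      obtain ⟨h, hlS⟩ := hSkmem l hl
      obtain ⟨s, rfl⟩ := (hav ⟨k, l, h⟩ x).1 hx
      rw [hq' l h]
      exact hlS.2.1 β hβ s)
    (fun l hl β hβ => by
      obtain ⟨h, hlS⟩ := hSkmem l hl
      obtain ⟨s, hs⟩ := hlS.2.2.1 β hβ
      exact ⟨_, hmem ⟨k, l, h⟩ s, hs⟩)
    (fun l hl x hx => by
      obtain ⟨h, hlS⟩ := hSkmem l hl
      obtain ⟨s, rfl⟩ := (hav ⟨k, l, h⟩ x).1 hx
      simp only [hq' l h]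
      exact hlS.2.2.2 s)
  have hSkcard : Sk.card = cnt S k := by
    simp only [Sk, cnt]
    rw [Finset.card_map, ← Set.ncard_eq_toFinset_card]
  rw [hSkcard] at h1
  have h2 : ((cnt S k : ℝ)) * (N k : ℝ) ≤ cc * ((P k).card : ℝ) := by
    have h3 : ((cnt S k : ℝ)) * (N k : ℝ) ≤ (1 / C') * ((P k).card : ℝ) := by
      rw [one_div, ← div_eq_inv_mul, le_div_iff₀ hC']
      calc (cnt S k : ℝ) * (N k : ℝ) * C' = C' * (cnt S k : ℝ) * (N k : ℝ) := by ring
        _ ≤ _ := h1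
    exact h3.trans (mul_le_mul_of_nonneg_right hcc (Nat.cast_nonneg _))
  exact_mod_cast h2

theorem main_all (hU : ∀ n, 3 ≤ n → TheoremU n) : ∀ n : ℕ, 1 ≤ n → Main n := by
  intro n hn
  induction n, hn using Nat.le_induction with
  | base => exact main_one
  | succ m hm ih =>
    rcases Nat.lt_or_ge m 2 with h | h
    · have : m = 1 := by omega
      subst this
      exact main_two
    · exact main_succ m h ih (hU (m + 1) (by omega))

end

end Pool.Agent.H7.Kakeya
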